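import Mathlib

/-! The two dimensional sphere is simply connected. -/

open Set Topology unitInterval

namespace Pool.Agent.Work.MP_7ba843_gt

/-- three dimensional Euclidean space -/
abbrev V := EuclideanSpace ℝ (Fin 3)

/-- the unit sphere -/
abbrev S2 := Metric.sphere (0 : V) 1

theorem loop_null (x : V) (γ : Path x x) (hγ : ∀ t, ‖γ t‖ = 1) :
    ∃ F : γ.Homotopy (.refl x), ∀ t, F t ≠ 0 := by
  obtain ⟨g, gs, hg, -⟩ := γ.continuous_extend.exists_contDiff_approx 1 (ε := fun _ => 1 / 4)
    continuous_const (fun _ => by norm_num)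
  let Q : ℝ → V := fun t => g t + (1 - t) • (x - g 0) + t • (x - g 1)
  have Qs : ContDiff ℝ 1 Q := by
    simp only [Q]
    fun_prop
  have hQ : ∀ t : I, ‖Q t - γ t‖ < 1 := by
    intro t
    have h0 := hg 0
    have h1 := hg 1
    have ht := hg t
    rw [dist_comm, dist_eq_norm] at h0 h1
    rw [dist_eq_norm] at ht
    simp only [Path.extend_zero, Path.extend_one, Path.extend_apply γ t.2] at h0 h1 ht
    have e : Q t - γ t = (g t - γ t) + (1 - (t : ℝ)) • (x - g 0) + (t : ℝ) • (x - g 1) := by
      simp only [Q]; abel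
    rw [e]
    have a := norm_add₃_le (a := g t - γ t) (b := (1 - (t : ℝ)) • (x - g 0))
      (c := (t : ℝ) • (x - g 1))
    rw [norm_smul, norm_smul, Real.norm_eq_abs, Real.norm_eq_abs, abs_of_nonneg t.2.1,
      abs_of_nonneg (sub_nonneg.2 t.2.2)] at a
    have := t.2.1
    have := t.2.2
    nlinarith
  have cone : ContDiff ℝ 1 fun q : ℝ × ℝ => q.2 • Q q.1 := by fun_prop
  obtain ⟨v, hv⟩ := (cone.dense_compl_range_of_finrank_lt_finrank (by simp)).nonempty
  have hv' : ∀ s t : ℝ, s • Q t ≠ v := fun s t h => hv ⟨(t, s), h⟩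
  have v0 : v ≠ 0 := by
    intro h
    exact hv' 0 0 (by simp [h])
  let W : Set V := {w | ∀ c : ℝ, 0 ≤ c → w ≠ -(c • v)}
  have star : StarConvex ℝ v W := by
    intro w hw a b ha hb hab c hc h
    rcases hb.eq_or_lt with rfl | hb'
    · have : a = 1 := by linarith
      subst this
      have h2 : (1 + c) • v = 0 := by
        rw [add_smul]
        simp only [zero_smul, add_zero] at h
        rw [h]; simp
      rcases smul_eq_zero.1 h2 with h3 | h3
      · linarith
      · exact v0 h3
    · apply hw ((a + c) / b) (by positivity)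
      have h2 : b • w = -((a + c) • v) := by
        rw [add_smul, neg_add, ← h]; abel
      rw [div_eq_inv_mul, mul_smul, ← smul_neg, ← h2, smul_smul, inv_mul_cancel₀ hb'.ne', one_smul]
  have vW : v ∈ W := by
    intro c hc h
    have h2 : (1 + c) • v = 0 := by
      rw [add_smul, one_smul]
      nth_rewrite 1 [h]
      simp
    rcases smul_eq_zero.1 h2 with h3 | h3
    · linarith
    · exact v0 h3
  have sc : IsSimplyConnected W := by
    have := star.contractibleSpace ⟨v, vW⟩
    exact SimplyConnectedSpace.ofContractible W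
  let q : Path x x := ⟨⟨fun t => Q t, Qs.continuous.comp continuous_subtype_val⟩,
    by simp [Q], by simp [Q]⟩
  have Q0 : ∀ t : I, Q t ≠ 0 := by
    intro t h
    have := hQ t
    rw [h, zero_sub, norm_neg, hγ] at this
    exact lt_irrefl _ this
  have qW : ∀ t, q t ∈ W := by
    intro t c hc h
    change Q t = _ at h
    rcases hc.eq_or_lt with rfl | hc'
    · exact Q0 t (by simpa using h)
    · apply hv' (-c⁻¹) t
      rw [h, smul_neg, smul_smul]
      simp [hc'.ne']
  obtain ⟨G, hG⟩ := (isSimplyConnected_iff_exists_homotopy_refl_forall_mem.1 sc).2 x q qW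
  let F : γ.Homotopy q :=
    { toFun := fun st => γ st.2 + (st.1 : ℝ) • (q st.2 - γ st.2)
      continuous_toFun := by fun_prop
      map_zero_left := by simp
      map_one_left := by simp
      prop' := by
        intro s t ht
        rcases ht with rfl | rfl <;> simp }
  have hF : ∀ st, F st ≠ 0 := by
    rintro ⟨s, t⟩ h
    change γ t + (s : ℝ) • (Q t - γ t) = 0 at h
    have h2 : γ t = -((s : ℝ) • (Q t - γ t)) := eq_neg_of_add_eq_zero_left h
    have h3 := hγ t
    rw [h2, norm_neg, norm_smul, Real.norm_eq_abs, abs_of_nonneg s.2.1] at h3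
    have := hQ t
    have := s.2.2
    have := s.2.1
    nlinarith [norm_nonneg (Q t - γ t)]
  refine ⟨F.trans G, fun st => ?_⟩
  rw [Path.Homotopy.trans_apply]
  split_ifs
  · exact hF _
  · intro h
    exact hG _ 0 le_rfl (by simpa using h)

theorem sc_sphere : SimplyConnectedSpace S2 := by
  refine isSimplyConnected_iff_exists_homotopy_refl_forall_mem.2
    ⟨isPathConnected_sphere (by
      rw [← Module.finrank_eq_rank]; simp) _ zero_le_one, fun x γ hγ => ?_⟩
  have hγ' : ∀ t, ‖γ t‖ = 1 := fun t => mem_sphere_zero_iff_norm.1 (hγ t)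
  have hx : ‖x‖ = 1 := by simpa using hγ' 0
  obtain ⟨F, hF⟩ := loop_null x γ hγ'
  refine ⟨{ toFun := fun st => ‖F st‖⁻¹ • F st
            continuous_toFun := (F.continuous.norm.inv₀ fun st => norm_ne_zero_iff.2 (hF st)).smul
              F.continuous
            map_zero_left := by intro t; simp [hγ']
            map_one_left := by intro t; simp [hx]
            prop' := ?_ }, fun st => ?_⟩
  · intro s t ht
    have := F.eq_fst s ht
    simp only [ContinuousMap.coe_mk, this]
    simp [hγ']
  · rw [mem_sphere_zero_iff_norm]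
    exact norm_smul_inv_norm (𝕜 := ℝ) (hF st)

theorem sc_prod : SimplyConnectedSpace (S2 × S2) := by
  have := sc_sphere
  rw [simply_connected_iff_paths_homotopic]
  refine ⟨inferInstance, ?_⟩
  rintro ⟨a, b⟩ ⟨c, d⟩
  refine ⟨fun p q => ?_⟩
  rw [← Path.Homotopic.prod_projLeft_projRight p, ← Path.Homotopic.prod_projLeft_projRight q]
  congr 1 <;> exact Subsingleton.elim _ _

theorem lpc_prod : LocallyPathConnectedSpace (S2 × S2) := by
  have : Fact (Module.finrank ℝ V = 2 + 1) := ⟨by simp⟩
  have : LocallyPathConnectedSpace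
      (ModelProd (EuclideanSpace ℝ (Fin 2)) (EuclideanSpace ℝ (Fin 2))) :=
    inferInstanceAs (LocallyPathConnectedSpace
      (EuclideanSpace ℝ (Fin 2) × EuclideanSpace ℝ (Fin 2)))
  exact ChartedSpace.locallyPathConnectedSpace
    (ModelProd (EuclideanSpace ℝ (Fin 2)) (EuclideanSpace ℝ (Fin 2))) _

end Pool.Agent.Work.MP_7ba843_gt
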