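import Pool.Agent.Work.MP_7ba843_gt.Charts

/-! A finite CW structure on `Gr` with `2, 4, 6, 4, 2` cells. -/

open Set Topology Metric

namespace Pool.Agent.Work.MP_7ba843_gt

theorem continuousOn_symm_aux {A X : Type} [TopologicalSpace A] [TopologicalSpace X] [T2Space X]
    [Nonempty A] {f : A → X} {U K : Set A} (hK : IsCompact K) (hUK : U ⊆ K)
    (hf : ContinuousOn f K) (inj : InjOn f U) (sat : ∀ a ∈ K, f a ∈ f '' U → a ∈ U) :
    ContinuousOn (inj.toPartialEquiv f U).symm (inj.toPartialEquiv f U).target := by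
  rw [continuousOn_iff_isClosed]
  intro Z hZ
  refine ⟨f '' (K ∩ Z), ((hK.inter_right hZ).image_of_continuousOn
    (hf.mono inter_subset_left)).isClosed, ?_⟩
  ext x
  constructor
  · rintro ⟨h1, h2⟩
    refine ⟨⟨_, ⟨hUK ((inj.toPartialEquiv f U).map_target h2), h1⟩, ?_⟩, h2⟩
    exact (inj.toPartialEquiv f U).right_inv h2
  · rintro ⟨⟨a, ⟨haK, haZ⟩, rfl⟩, h2⟩
    refine ⟨?_, h2⟩
    have := (inj.toPartialEquiv f U).left_inv (x := a) (sat a haK h2)
    rw [mem_preimage]
    exact this.symm ▸ haZ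

/-- parametrisation of the closed hemispheres -/
noncomputable def hv (i : Fin 3) (u v : ℝ) : V :=
  if i = 0 then !₂[1, 0, 0] else if i = 1 then !₂[u, 1 - |u|, 0] else !₂[u, v, 1 - max |u| |v|]

theorem hv_gt {i k : Fin 3} (h : i < k) (u v : ℝ) : hv i u v k = 0 := by
  fin_cases i <;> fin_cases k <;> simp_all [hv]

theorem hv_pos (i : Fin 3) {u v : ℝ} (hu : |u| < 1) (hv' : |v| < 1) : 0 < hv i u v i := by
  fin_cases i <;> simp [hv, hu, hv']

theorem hv_top_zero {i : Fin 3} {u v : ℝ} (hu : |u| ≤ 1) (hv' : |v| ≤ 1)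
    (h : (1 ≤ i.val ∧ |u| = 1) ∨ (2 ≤ i.val ∧ |v| = 1)) : hv i u v i = 0 := by
  fin_cases i
  · simp at h
  · simp at h; simp [hv, h]
  · rcases h with ⟨-, h⟩ | ⟨-, h⟩
    · simp [hv, h, hv']
    · simp [hv, h, hu]

theorem hv_ne (i : Fin 3) (u v : ℝ) : hv i u v ≠ 0 := by
  intro h
  have h0 := congrArg (fun x : V => x 0) h
  have h1 := congrArg (fun x : V => x 1) h
  have h2 := congrArg (fun x : V => x 2) h
  fin_cases i
  · simp [hv] at h0
  · simp [hv] at h0 h1
    simp [h0] at h1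
  · simp [hv] at h0 h1 h2
    simp [h0, h1] at h2

theorem hv_surj {i : Fin 3} {x : V} (hx : 0 < x i) (h : ∀ k, i < k → x k = 0) :
    ∃ c u v : ℝ, 0 < c ∧ |u| < 1 ∧ |v| < 1 ∧ x = c • hv i u v := by
  fin_cases i
  · refine ⟨x 0, 0, 0, hx, by simp, by simp, ?_⟩
    ext k
    fin_cases k
    · simp [hv]
    · simpa [hv] using h 1 (by decide)
    · simpa [hv] using h 2 (by decide)
  · change 0 < x 1 at hx
    have hc : 0 < |x 0| + x 1 := by positivity
    refine ⟨|x 0| + x 1, x 0 / (|x 0| + x 1), 0, hc, ?_, by simp, ?_⟩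
    · rw [abs_div, abs_of_pos hc, div_lt_one hc]; linarith
    ext k
    fin_cases k
    · simp [hv]; field_simp
    · simp [hv, abs_div, abs_of_pos hc]; field_simp; ring
    · simpa [hv] using h 2 (by decide)
  · change 0 < x 2 at hx
    have hc : 0 < max |x 0| |x 1| + x 2 := by positivity
    refine ⟨max |x 0| |x 1| + x 2, x 0 / (max |x 0| |x 1| + x 2), x 1 / (max |x 0| |x 1| + x 2),
      hc, ?_, ?_, ?_⟩
    · rw [abs_div, abs_of_pos hc, div_lt_one hc]; linarith [le_max_left |x 0| |x 1|]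
    · rw [abs_div, abs_of_pos hc, div_lt_one hc]; linarith [le_max_right |x 0| |x 1|]
    ext k
    fin_cases k
    · simp [hv]; field_simp
    · simp [hv]; field_simp
    · simp [hv, abs_div, abs_of_pos hc, max_div_div_right hc.le]; field_simp; ring

theorem hv_inj {i : Fin 3} {u v u' v' c : ℝ} (hc : 0 < c) (h : hv i u v = c • hv i u' v') :
    (1 ≤ i.val → u = u') ∧ (2 ≤ i.val → v = v') := by
  have h0 := congrArg (fun x : V => x 0) h
  have h1 := congrArg (fun x : V => x 1) h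
  have h2 := congrArg (fun x : V => x 2) h
  fin_cases i
  · simp
  · simp [hv] at h0 h1
    rw [h0, abs_mul, abs_of_pos hc] at h1
    have : c = 1 := by linarith
    simp [h0, this]
  · simp [hv] at h0 h1 h2
    rw [h0, h1, abs_mul, abs_mul, abs_of_pos hc, ← mul_max_of_nonneg _ _ hc.le] at h2
    have : c = 1 := by linarith
    simp [h0, h1, this]

theorem continuous_hv {A : Type} [TopologicalSpace A] (i : Fin 3) {u v : A → ℝ}
    (hu : Continuous u) (hv' : Continuous v) : Continuous fun a => hv i (u a) (v a) := by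
  unfold hv
  split_ifs <;> fun_prop

/-- extension by zero -/
def ex {n : ℕ} (s : Fin n → ℝ) (m : ℕ) : ℝ := if h : m < n then s ⟨m, h⟩ else 0

theorem continuous_ex (n m : ℕ) : Continuous fun s : Fin n → ℝ => ex s m := by
  unfold ex
  split_ifs <;> fun_prop

theorem ex_lt {n : ℕ} {s : Fin n → ℝ} (hs : s ∈ ball 0 1) (m : ℕ) : |ex s m| < 1 := by
  unfold ex
  split_ifs
  · exact (norm_le_pi_norm s _).trans_lt (mem_ball_zero_iff.1 hs)
  · simp

theorem ex_le {n : ℕ} {s : Fin n → ℝ} (hs : s ∈ closedBall 0 1) (m : ℕ) : |ex s m| ≤ 1 := by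
  unfold ex
  split_ifs
  · exact (norm_le_pi_norm s _).trans (mem_closedBall_zero_iff.1 hs)
  · simp

/-- characteristic maps -/
noncomputable def ch (c : Fin 3 × Fin 3 × Bool) (n : ℕ) (s : Fin n → ℝ) : Gr :=
  qq (hv c.1 (ex s 0) (ex s 1)) (sg c.2.2 • hv c.2.1 (ex s c.1) (ex s (c.1 + 1)))

theorem shv_ne (e : Bool) (i : Fin 3) (u v : ℝ) : sg e • hv i u v ≠ 0 :=
  smul_ne_zero (sg_ne_zero e) (hv_ne i u v)

theorem continuous_ch (c : Fin 3 × Fin 3 × Bool) (n : ℕ) : Continuous (ch c n) :=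
  Continuous.qq (continuous_hv _ (continuous_ex _ _) (continuous_ex _ _))
    ((continuous_hv _ (continuous_ex _ _) (continuous_ex _ _)).fun_const_smul _)
    (fun _ => hv_ne _ _ _) (fun _ => shv_ne _ _ _ _)

/-- open cells -/
def oc (c : Fin 3 × Fin 3 × Bool) : Set Gr :=
  {M | 0 < sg c.2.2 * M.1 c.1 c.2.1 ∧ ∀ k l, c.1 < k ∨ c.2.1 < l → M.1 k l = 0}

theorem ch_zero (c : Fin 3 × Fin 3 × Bool) (n : ℕ) (s : Fin n → ℝ) (k l : Fin 3)
    (h : c.1 < k ∨ c.2.1 < l) : (ch c n s).1 k l = 0 := by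
  rw [ch, qq_zero_iff (hv_ne _ _ _) (shv_ne _ _ _ _)]
  rcases h with h | h <;> simp [hv_gt h]

theorem ch_mem (c : Fin 3 × Fin 3 × Bool) {n : ℕ} {s : Fin n → ℝ} (hs : s ∈ ball 0 1) :
    ch c n s ∈ oc c := by
  refine ⟨?_, ch_zero c n s⟩
  rw [ch, qq_pos_iff (hv_ne _ _ _) (shv_ne _ _ _ _)]
  have a := hv_pos c.1 (ex_lt hs 0) (ex_lt hs 1)
  have b := hv_pos c.2.1 (ex_lt hs c.1) (ex_lt hs (c.1 + 1))
  have e := sg_mul_self c.2.2
  simp only [PiLp.smul_apply, smul_eq_mul]
  rw [show ∀ s p q : ℝ, s * (p * (s * q)) = (s * s) * (p * q) by intros; ring, e]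
  positivity

theorem ch_bd (c : Fin 3 × Fin 3 × Bool) {n : ℕ} (hn : c.1.val + c.2.1.val = n) {s : Fin n → ℝ}
    (hs : s ∈ closedBall 0 1) (hs' : s ∉ ball 0 1) : (ch c n s).1 c.1 c.2.1 = 0 := by
  rw [mem_ball_zero_iff, pi_norm_lt_iff one_pos] at hs'
  push Not at hs'
  obtain ⟨m, hm⟩ := hs'
  have h1 : |ex s m| = 1 := le_antisymm (ex_le hs m) (by simpa [ex] using hm)
  rw [ch, qq_zero_iff (hv_ne _ _ _) (shv_ne _ _ _ _)]
  have hm2 := m.2
  have := c.1.2
  have := c.2.1.2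
  by_cases h : m.val < c.1.val
  · rw [hv_top_zero (ex_le hs 0) (ex_le hs 1), zero_mul]
    by_cases h0 : m.val = 0
    · exact Or.inl ⟨by omega, h0 ▸ h1⟩
    · have h0' : m.val = 1 := by omega
      exact Or.inr ⟨by omega, h0' ▸ h1⟩
  · simp only [PiLp.smul_apply, smul_eq_mul]
    rw [hv_top_zero (i := c.2.1) (ex_le hs _) (ex_le hs _), mul_zero, mul_zero]
    by_cases h0 : m.val = c.1.val
    · exact Or.inl ⟨by omega, h0 ▸ h1⟩
    · have h0' : m.val = c.1.val + 1 := by omega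
      exact Or.inr ⟨by omega, h0' ▸ h1⟩

theorem hv_congr {i : Fin 3} {u v u' v' : ℝ} (h1 : 1 ≤ i.val → u = u') (h2 : 2 ≤ i.val → v = v') :
    hv i u v = hv i u' v' := by
  fin_cases i
  · simp [hv]
  · simp [hv, h1 le_rfl]
  · rw [h1 (by simp), h2 le_rfl]

theorem oc_surj (c : Fin 3 × Fin 3 × Bool) {n : ℕ} (hn : c.1.val + c.2.1.val = n) {M : Gr}
    (hM : M ∈ oc c) : ∃ s ∈ ball (0 : Fin n → ℝ) 1, ch c n s = M := by
  obtain ⟨i, j, e⟩ := c
  obtain ⟨x, y, hx, hy, rfl⟩ := exists_qq M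
  obtain ⟨h1, h2⟩ := hM
  simp only [qq_pos_iff hx hy, qq_zero_iff hx hy] at h1 h2 hn
  have xi : x i ≠ 0 := by intro h; simp [h] at h1
  have yj : y j ≠ 0 := by intro h; simp [h] at h1
  obtain ⟨c, u, v, hc, hu, hv', ex1⟩ := hv_surj (i := i) (x := x i • x)
    (by simpa using xi) (fun k hk => by simpa [yj, xi] using h2 k j (Or.inl hk))
  obtain ⟨d, u', v', hd, hu', hv'', ex2⟩ := hv_surj (i := j) (x := (sg e * x i) • y)
    (by simpa [mul_assoc] using h1)
    (fun k hk => by simpa [xi, sg_ne_zero] using h2 i k (Or.inr hk))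
  let s : Fin n → ℝ := fun m => if m.val < i.val then (if m.val = 0 then u else v)
    else (if m.val = i.val then u' else v')
  refine ⟨s, ?_, ?_⟩
  · rw [mem_ball_zero_iff, pi_norm_lt_iff one_pos]
    intro m
    simp only [s]
    split_ifs <;> assumption
  have a1 : hv i (ex s 0) (ex s 1) = hv i u v := by
    apply hv_congr
    · intro h
      simp only [ex, s]
      rw [dif_pos (by omega), if_pos (by omega), if_pos trivial]
    · intro h
      simp only [ex, s]
      rw [dif_pos (by omega), if_pos (by omega), if_neg (by omega)]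
  have a2 : hv j (ex s i) (ex s (i + 1)) = hv j u' v' := by
    apply hv_congr
    · intro h
      simp only [ex, s]
      rw [dif_pos (by omega), if_neg (by omega), if_pos trivial]
    · intro h
      simp only [ex, s]
      rw [dif_pos (by omega), if_neg (by omega), if_neg (by omega)]
  simp only [ch, a1, a2]
  rw [← qq_smul (hv_ne _ _ _) (shv_ne _ _ _ _) (mul_pos hc hd), ← ex1, smul_comm d, ← ex2,
    smul_smul, ← mul_assoc, sg_mul_self, one_mul]
  exact qq_smul hx hy (mul_self_pos.2 xi)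

theorem ch_inj (c : Fin 3 × Fin 3 × Bool) {n : ℕ} (hn : c.1.val + c.2.1.val = n) :
    InjOn (ch c n) (ball 0 1) := by
  obtain ⟨i, j, e⟩ := c
  intro s hs t ht h
  obtain ⟨a, b, hab, e1, e2⟩ := qq_eq (hv_ne _ _ _) (shv_ne _ _ _ _) (hv_ne _ _ _)
    (shv_ne _ _ _ _) h.symm
  simp only at e1 e2 hn
  have ha : 0 < a := by
    have p1 := hv_pos i (ex_lt hs 0) (ex_lt hs 1)
    have p2 := hv_pos i (ex_lt ht 0) (ex_lt ht 1)
    rw [e1] at p1
    exact (mul_pos_iff_of_pos_right p2).1 (by simpa using p1)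
  have hb : 0 < b := (mul_pos_iff_of_pos_left ha).1 hab
  rw [smul_comm] at e2
  have e3 := smul_right_injective V (sg_ne_zero e) e2
  obtain ⟨f1, f2⟩ := hv_inj ha e1
  obtain ⟨f3, f4⟩ := hv_inj hb e3
  funext m
  have hm := m.2
  have := i.2
  have := j.2
  have key : ex s m = ex t m := by
    by_cases h : m.val < i.val
    · by_cases h0 : m.val = 0
      · rw [h0]; exact f1 (by omega)
      · rw [show m.val = 1 by omega]; exact f2 (by omega)
    · by_cases h0 : m.val = i.val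
      · rw [h0]; exact f3 (by omega)
      · rw [show m.val = i.val + 1 by omega]; exact f4 (by omega)
  simpa [ex] using key

theorem oc_ne {c : Fin 3 × Fin 3 × Bool} {M : Gr} (h : M ∈ oc c) : M.1 c.1 c.2.1 ≠ 0 := by
  intro h0
  have := h.1
  simp [h0] at this

theorem oc_unique {c c' : Fin 3 × Fin 3 × Bool} {M : Gr} (h : M ∈ oc c) (h' : M ∈ oc c') :
    c = c' := by
  obtain ⟨i, j, e⟩ := c
  obtain ⟨i', j', e'⟩ := c'
  have a := mt (h'.2 i j) (oc_ne h)
  have b := mt (h.2 i' j') (oc_ne h')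
  simp only [not_or, not_lt] at a b
  obtain rfl : i = i' := le_antisymm a.1 b.1
  obtain rfl : j = j' := le_antisymm a.2 b.2
  have p := h.1
  have q := h'.1
  cases e <;> cases e' <;> simp [sg] at p q ⊢ <;> linarith

theorem exists_top {x : V} (hx : x ≠ 0) : ∃ i, x i ≠ 0 ∧ ∀ k, i < k → x k = 0 := by
  by_cases h2 : x 2 = 0
  · by_cases h1 : x 1 = 0
    · refine ⟨0, fun h0 => hx ?_, fun k hk => ?_⟩
      · ext k; fin_cases k <;> simp [h0, h1, h2]
      · fin_cases k <;> simp_all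
    · exact ⟨1, h1, fun k hk => by fin_cases k <;> simp_all⟩
  · exact ⟨2, h2, fun k hk => by fin_cases k <;> simp_all⟩

theorem exists_oc (M : Gr) : ∃ c, M ∈ oc c := by
  obtain ⟨x, y, hx, hy, rfl⟩ := exists_qq M
  obtain ⟨i, hi, hi'⟩ := exists_top hx
  obtain ⟨j, hj, hj'⟩ := exists_top hy
  obtain ⟨e, he⟩ := exists_sg (mul_ne_zero hi hj)
  refine ⟨(i, j, e), (qq_pos_iff hx hy _ _ _).2 he, fun k l h => (qq_zero_iff hx hy _ _).2 ?_⟩
  rcases h with h | h
  · simp [hi' k h]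
  · simp [hj' l h]

/-- index type of the cells of a given dimension -/
abbrev Cell (n : ℕ) : Type := {c : Fin 3 × Fin 3 × Bool // c.1.val + c.2.1.val = n}

/-- characteristic maps as partial equivalences -/
noncomputable def cmap (n : ℕ) (c : Cell n) : PartialEquiv (Fin n → ℝ) Gr :=
  (ch_inj c.1 c.2).toPartialEquiv (ch c.1 n) (ball 0 1)

theorem cmap_coe (n : ℕ) (c : Cell n) : ⇑(cmap n c) = ch c.1 n := rfl

theorem cell_empty {n : ℕ} (h : 5 ≤ n) : IsEmpty (Cell n) :=
  ⟨fun c => by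
    have := c.2
    have := c.1.1.2
    have := c.1.2.1.2
    omega⟩

/-- the CW structure -/
@[reducible] noncomputable def cw : CWComplex (univ : Set Gr) :=
  CWComplex.mkFinite univ Cell cmap (Filter.eventually_atTop.2 ⟨5, fun _ => cell_empty⟩)
    (fun _ => inferInstance) (fun _ _ => rfl) (fun n c => (continuous_ch c.1 n).continuousOn)
    (fun n c => continuousOn_symm_aux (isCompact_closedBall 0 1) ball_subset_closedBall
      (continuous_ch c.1 n).continuousOn _ (by
        rintro s hs ⟨t, ht, e⟩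
        by_contra h
        exact oc_ne (e ▸ ch_mem c.1 ht) (ch_bd c.1 c.2 hs h)))
    (by
      rintro ⟨n, c⟩ - ⟨n', c'⟩ - hne
      rw [Function.onFun, Set.disjoint_left]
      rintro M ⟨s, hs, rfl⟩ ⟨t, ht, e⟩
      have h1 : c.1 = c'.1 := oc_unique (ch_mem c.1 hs) (by
        have := ch_mem c'.1 ht
        rw [cmap_coe, cmap_coe] at e
        exact e ▸ this)
      apply hne
      obtain ⟨c, rfl⟩ := c
      obtain ⟨c', rfl⟩ := c'
      obtain rfl : c = c' := h1
      rfl)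
    (by
      intro n c s hs
      obtain ⟨c', hc'⟩ := exists_oc (ch c.1 n s)
      have h0 := ch_bd c.1 c.2 (sphere_subset_closedBall hs)
        (by simp [mem_sphere_zero_iff_norm.1 hs])
      have a := mt (ch_zero c.1 n s c'.1 c'.2.1) (oc_ne hc')
      simp only [not_or, not_lt] at a
      have b : ¬ (c'.1 = c.1.1 ∧ c'.2.1 = c.1.2.1) := by
        rintro ⟨h1, h2⟩
        exact oc_ne hc' (by rw [h1, h2]; exact h0)
      obtain ⟨t, ht, e⟩ := oc_surj c' rfl hc'
      simp only [mem_iUnion]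
      refine ⟨c'.1.val + c'.2.1.val, ?_, ⟨c', rfl⟩, t, ball_subset_closedBall ht, e⟩
      have := c.2
      rw [Fin.le_def, Fin.le_def] at a
      rw [Fin.ext_iff, Fin.ext_iff] at b
      omega)
    (by
      apply eq_univ_of_forall
      intro M
      obtain ⟨c, hc⟩ := exists_oc M
      obtain ⟨t, ht, e⟩ := oc_surj c rfl hc
      simp only [mem_iUnion]
      exact ⟨_, ⟨c, rfl⟩, t, ball_subset_closedBall ht, e⟩)

theorem euler_Gr : HasEulerChar Gr 2 := by
  refine ⟨cw, ?_, ?_⟩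
  · change Finite (Σ n, Cell n)
    exact Finite.of_equiv _ (Equiv.sigmaFiberEquiv
      fun c : Fin 3 × Fin 3 × Bool => c.1.val + c.2.1.val).symm
  · change ∑ᶠ n, (-1 : ℤ) ^ n * (Nat.card (Cell n) : ℤ) = 2
    rw [finsum_eq_sum_of_support_subset (s := Finset.range 5)]
    · simp only [Finset.sum_range_succ, Finset.sum_range_zero, Nat.card_eq_fintype_card]
      decide
    · intro n hn
      by_contra h
      have := cell_empty (n := n) (by simpa using h)
      simp at hn

end Pool.Agent.Work.MP_7ba843_gt
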