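import Pool.Agent.Work.MP_7ba843_gt.Space

/-! The oriented smooth atlas on `Gr`. -/

open Set Topology
open scoped Manifold ContDiff

namespace Pool.Agent.Work.MP_7ba843_gt

/-- four dimensional Euclidean space -/
abbrev E4 := EuclideanSpace ℝ (Fin 4)

/-- sign attached to a Boolean -/
def sg (e : Bool) : ℝ := if e then 1 else -1

theorem sg_mul_self (e : Bool) : sg e * sg e = 1 := by cases e <;> simp [sg]

theorem sg_ne_zero (e : Bool) : sg e ≠ 0 := by cases e <;> simp [sg]

/-- affine coordinates -/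
noncomputable def io (a : Fin 3) (u v : ℝ) : V :=
  WithLp.toLp 2 fun i => if i = a then 1 else if i = a + 1 then u else v

@[simp] theorem io_self (a : Fin 3) (u v : ℝ) : io a u v a = 1 := by simp [io]

@[simp] theorem io_one (a : Fin 3) (u v : ℝ) : io a u v (a + 1) = u := by
  fin_cases a <;> simp [io]

@[simp] theorem io_two (a : Fin 3) (u v : ℝ) : io a u v (a + 2) = v := by
  fin_cases a <;> simp [io]

theorem fin3_cases (a c : Fin 3) : c = a ∨ c = a + 1 ∨ c = a + 2 := by
  revert a c; decide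

theorem io_ne_zero (a : Fin 3) (u v : ℝ) : io a u v ≠ 0 := by
  intro h
  have := io_self a u v
  rw [h] at this
  simp at this

theorem io_div {x : V} {a : Fin 3} (h : x a ≠ 0) :
    io a (x (a + 1) / x a) (x (a + 2) / x a) = (x a)⁻¹ • x := by
  ext c
  rcases fin3_cases a c with rfl | rfl | rfl
  · simp [h]
  · simp [div_eq_inv_mul]
  · simp [div_eq_inv_mul]

theorem contDiff_io {F : Type} [NormedAddCommGroup F] [NormedSpace ℝ F] (a : Fin 3)
    {u v : F → ℝ} (hu : ContDiff ℝ ∞ u) (hv : ContDiff ℝ ∞ v) :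
    ContDiff ℝ ∞ fun w => io a (u w) (v w) := by
  rw [contDiff_euclidean]
  intro c
  rcases fin3_cases a c with rfl | rfl | rfl
  · simp only [io_self]; exact contDiff_const
  · simpa only [io_one] using hu
  · simpa only [io_two] using hv

/-- the chart map on arrays -/
noncomputable def chartFun (a b : Fin 3) (s : ℝ) (M : Mat) : E4 :=
  !₂[M (a + 1) b / M a b, M (a + 2) b / M a b, M a (b + 1) / M a b, s * (M a (b + 2) / M a b)]

/-- the chart map on pairs of vectors -/
noncomputable def rat (a b : Fin 3) (s : ℝ) (x y : V) : E4 :=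
  !₂[x (a + 1) / x a, x (a + 2) / x a, y (b + 1) / y b, s * (y (b + 2) / y b)]

theorem chartFun_qq {x y : V} {a b : Fin 3} (s : ℝ) (hx : x a ≠ 0) (hy : y b ≠ 0) :
    chartFun a b s (qq x y).1 = rat a b s x y := by
  have x0 : x ≠ 0 := by rintro rfl; simp at hx
  have y0 : y ≠ 0 := by rintro rfl; simp at hy
  have := norm_ne_zero_iff.2 x0
  have := norm_ne_zero_iff.2 y0
  simp only [chartFun, rat, qq_val x0 y0]
  congr 2
  · field_simp
  congr 1
  · field_simp
  congr 1
  · field_simp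
  congr 1
  field_simp

theorem contDiffAt_chartFun (a b : Fin 3) (s : ℝ) {M : Mat} (h : M a b ≠ 0) :
    ContDiffAt ℝ ∞ (chartFun a b s) M := by
  rw [contDiffAt_euclidean]
  intro i
  fin_cases i <;> simp [chartFun] <;> fun_prop (disch := exact h)

/-- first vector of the inverse chart -/
noncomputable def invX (a : Fin 3) (s : ℝ) (w : E4) : V := s • io a (w 0) (w 1)

/-- second vector of the inverse chart -/
noncomputable def invY (b : Fin 3) (s : ℝ) (w : E4) : V := io b (w 2) (s * w 3)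

theorem invX_ne (a : Fin 3) (e : Bool) (w : E4) : invX a (sg e) w ≠ 0 :=
  smul_ne_zero (sg_ne_zero e) (io_ne_zero _ _ _)

theorem invY_ne (b : Fin 3) (s : ℝ) (w : E4) : invY b s w ≠ 0 := io_ne_zero _ _ _

theorem contDiff_invX (a : Fin 3) (s : ℝ) : ContDiff ℝ ∞ (invX a s) :=
  (contDiff_io a (by fun_prop) (by fun_prop)).const_smul s

theorem contDiff_invY (b : Fin 3) (s : ℝ) : ContDiff ℝ ∞ (invY b s) :=
  contDiff_io b (by fun_prop) (by fun_prop)

/-- the eighteen charts -/
noncomputable def chart (c : Fin 3 × Fin 3 × Bool) : OpenPartialHomeomorph Gr E4 where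
  toFun M := chartFun c.1 c.2.1 (sg c.2.2) M.1
  invFun w := qq (invX c.1 (sg c.2.2) w) (invY c.2.1 (sg c.2.2) w)
  source := {M | 0 < sg c.2.2 * M.1 c.1 c.2.1}
  target := univ
  map_source' := fun _ _ => mem_univ _
  map_target' := by
    intro w _
    rw [mem_ofPred_eq, qq_pos_iff (invX_ne _ _ _) (invY_ne _ _ _)]
    simp [invX, invY, sg_mul_self]
  left_inv' := by
    obtain ⟨a, b, e⟩ := c
    intro M hM
    obtain ⟨x, y, hx, hy, rfl⟩ := exists_qq M
    have hM' : 0 < sg e * (x a * y b) := (qq_pos_iff hx hy _ _ _).1 hM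
    have xa : x a ≠ 0 := by intro h; simp [h] at hM'
    have yb : y b ≠ 0 := by intro h; simp [h] at hM'
    simp only [chartFun_qq _ xa yb, invX, invY, rat]
    simp only [Matrix.cons_val_zero, Matrix.cons_val_one, Matrix.cons_val, ← mul_assoc,
      sg_mul_self, one_mul]
    rw [io_div xa, io_div yb, smul_smul]
    apply qq_smul hx hy
    have : sg e * (x a)⁻¹ * (y b)⁻¹ = sg e * (x a * y b) / (x a * y b) ^ 2 := by field_simp
    rw [this]
    positivity
  right_inv' := by
    obtain ⟨a, b, e⟩ := c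
    intro w _
    have := sg_ne_zero e
    rw [chartFun_qq _ (by simp [invX, this]) (by simp [invY])]
    ext i
    fin_cases i <;> simp [rat, invX, invY, this, ← mul_assoc, sg_mul_self]
  open_source := isOpen_lt continuous_const (continuous_const.mul
    ((continuous_apply _).comp ((continuous_apply _).comp continuous_subtype_val)))
  open_target := isOpen_univ
  continuousOn_toFun := by
    intro M hM
    have h : M.1 c.1 c.2.1 ≠ 0 := by
      intro h
      simp [h] at hM
    exact ((contDiffAt_chartFun _ _ _ h).continuousAt.comp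
      continuous_subtype_val.continuousAt).continuousWithinAt
  continuousOn_invFun := (Continuous.qq (contDiff_invX _ _).continuous
    (contDiff_invY _ _).continuous (invX_ne _ _) (invY_ne _ _)).continuousOn

theorem chart_apply (c : Fin 3 × Fin 3 × Bool) (M : Gr) :
    chart c M = chartFun c.1 c.2.1 (sg c.2.2) M.1 := rfl

theorem chart_symm_apply (c : Fin 3 × Fin 3 × Bool) (w : E4) :
    (chart c).symm w = qq (invX c.1 (sg c.2.2) w) (invY c.2.1 (sg c.2.2) w) := rfl

theorem mem_chart (c : Fin 3 × Fin 3 × Bool) (M : Gr) :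
    M ∈ (chart c).source ↔ 0 < sg c.2.2 * M.1 c.1 c.2.1 := Iff.rfl

theorem exists_ne_zero {x : V} (hx : x ≠ 0) : ∃ a, x a ≠ 0 := by
  by_contra h
  push Not at h
  exact hx (by ext a; simp [h])

theorem exists_sg {r : ℝ} (h : r ≠ 0) : ∃ e, 0 < sg e * r := by
  rcases h.lt_or_gt with h | h
  · exact ⟨false, by simpa [sg] using h⟩
  · exact ⟨true, by simpa [sg] using h⟩

theorem exists_chart (M : Gr) : ∃ c, M ∈ (chart c).source := by
  obtain ⟨x, y, hx, hy, rfl⟩ := exists_qq M
  obtain ⟨a, ha⟩ := exists_ne_zero hx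
  obtain ⟨b, hb⟩ := exists_ne_zero hy
  obtain ⟨e, he⟩ := exists_sg (mul_ne_zero ha hb)
  exact ⟨(a, b, e), (qq_pos_iff hx hy _ _ _).2 he⟩

noncomputable instance chartedGr : ChartedSpace E4 Gr where
  atlas := range chart
  chartAt M := chart (exists_chart M).choose
  mem_chart_source M := (exists_chart M).choose_spec
  chart_mem_atlas _ := mem_range_self _

theorem contDiffAt_qq_val {F : Type} [NormedAddCommGroup F] [NormedSpace ℝ F] {f g : F → V}
    {w : F} (hf : ContDiffAt ℝ ∞ f w) (hg : ContDiffAt ℝ ∞ g w) (f0 : f w ≠ 0) (g0 : g w ≠ 0) :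
    ContDiffAt ℝ ∞ (fun v => (qq (f v) (g v)).1) w := by
  have h1 : ContDiffAt ℝ ∞ (fun v => fun i j => f v i * g v j / (‖f v‖ * ‖g v‖)) w := by
    have a := hf.norm ℝ f0
    have b := hg.norm ℝ g0
    have := norm_ne_zero_iff.2 f0
    have := norm_ne_zero_iff.2 g0
    refine contDiffAt_pi.2 fun i => contDiffAt_pi.2 fun j => ?_
    exact ((contDiffAt_euclidean.1 hf i).mul (contDiffAt_euclidean.1 hg j)).div (a.mul b)
      (by positivity)
  refine h1.congr_of_eventuallyEq ?_
  filter_upwards [hf.continuousAt.eventually_ne f0, hg.continuousAt.eventually_ne g0] with v h h'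
  funext i j
  exact qq_val h h' i j

theorem contDiff_chart_symm_val (c : Fin 3 × Fin 3 × Bool) :
    ContDiff ℝ ∞ fun w => ((chart c).symm w).1 :=
  contDiff_iff_contDiffAt.2 fun w => contDiffAt_qq_val (contDiff_invX _ _).contDiffAt
    (contDiff_invY _ _).contDiffAt (invX_ne _ _ w) (invY_ne _ _ w)

instance manifoldGr : IsManifold (𝓡 4) ∞ Gr := by
  apply isManifold_of_contDiffOn
  rintro _ _ ⟨c, rfl⟩ ⟨c', rfl⟩ w hw
  have h1 : (chart c).symm w ∈ (chart c').source := hw.1.2
  have h2 : ((chart c).symm w).1 c'.1 c'.2.1 ≠ 0 := by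
    intro h
    rw [mem_chart, h] at h1
    simp at h1
  exact ((contDiffAt_chartFun _ _ (sg c'.2.2) h2).comp w
    (contDiff_chart_symm_val c).contDiffAt).contDiffWithinAt

/-- the inclusion in the space of arrays is smooth -/
theorem contMDiff_val : ContMDiff (𝓡 4) 𝓘(ℝ, Mat) ∞ (Subtype.val : Gr → Mat) := by
  intro M
  rw [contMDiffAt_iff]
  refine ⟨continuous_subtype_val.continuousAt, ?_⟩
  exact (contDiff_chart_symm_val (exists_chart M).choose).contDiffAt.contDiffWithinAt

/-- a map into `Gr` is smooth as soon as it is smooth as a map into arrays -/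
theorem contMDiffAt_of_val {F H N : Type} [NormedAddCommGroup F] [NormedSpace ℝ F]
    [TopologicalSpace H] {J : ModelWithCorners ℝ F H} [TopologicalSpace N] [ChartedSpace H N]
    {f : N → Gr} {n : N} (hf : ContMDiffAt J 𝓘(ℝ, Mat) ∞ (fun m => (f m).1) n) :
    ContMDiffAt J (𝓡 4) ∞ f n := by
  rw [contMDiffAt_iff_target]
  refine ⟨IsInducing.subtypeVal.continuousAt_iff.2 hf.continuousAt, ?_⟩
  have h1 := (exists_chart (f n)).choose_spec
  have h2 : (f n).1 (exists_chart (f n)).choose.1 (exists_chart (f n)).choose.2.1 ≠ 0 := by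
    intro h
    rw [mem_chart, h] at h1
    simp at h1
  exact ContDiffAt.comp_contMDiffAt (f := fun m => (f m).1)
    (contDiffAt_chartFun _ _ (sg (exists_chart (f n)).choose.2.2) h2) hf

/-- planar transition maps -/
noncomputable def tr (a c : Fin 3) (s t : ℝ) (z : ℝ × ℝ) : ℝ × ℝ :=
  (io a z.1 (s * z.2) (c + 1) / io a z.1 (s * z.2) c,
    t * (io a z.1 (s * z.2) (c + 2) / io a z.1 (s * z.2) c))

/-- a linear map of the plane given by a matrix -/
noncomputable def lin2 (p q r s : ℝ) : ℝ × ℝ →L[ℝ] ℝ × ℝ :=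
  (Matrix.toLin (.finTwoProd ℝ) (.finTwoProd ℝ) !![p, q; r, s]).toContinuousLinearMap

theorem lin2_det (p q r s : ℝ) : (lin2 p q r s).det = p * s - q * r := by
  simp only [lin2, LinearMap.det_toContinuousLinearMap, LinearMap.det_toLin,
    Matrix.det_fin_two_of]

theorem lin2_eq (p q r s : ℝ) : lin2 p q r s =
    (p • ContinuousLinearMap.fst ℝ ℝ ℝ + q • ContinuousLinearMap.snd ℝ ℝ ℝ).prod
      (r • ContinuousLinearMap.fst ℝ ℝ ℝ + s • ContinuousLinearMap.snd ℝ ℝ ℝ) := by
  rw [lin2, Matrix.toLin_finTwoProd_toContinuousLinearMap]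

theorem tr_deriv (a c : Fin 3) (s t : ℝ) (z : ℝ × ℝ) (h : io a z.1 (s * z.2) c ≠ 0) :
    ∃ L : ℝ × ℝ →L[ℝ] ℝ × ℝ, HasFDerivAt (tr a c s t) L z ∧
      L.det = s * t / (io a z.1 (s * z.2) c) ^ 3 := by
  have f1 : HasFDerivAt (fun z : ℝ × ℝ => z.1) (ContinuousLinearMap.fst ℝ ℝ ℝ) z := hasFDerivAt_fst
  have f2 : HasFDerivAt (fun z : ℝ × ℝ => s * z.2) (s • ContinuousLinearMap.snd ℝ ℝ ℝ) z :=
    hasFDerivAt_snd.const_mul s
  rcases fin3_cases a c with rfl | rfl | rfl
  · refine ⟨lin2 1 0 0 (t * s), ?_, by simp [lin2_det, mul_comm]⟩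
    have e : tr c c s t = fun z => (z.1, t * (s * z.2)) := by
      funext z; simp [tr]
    rw [e, lin2_eq]
    refine (f1.congr_fderiv ?_).prodMk ((f2.const_mul t).congr_fderiv ?_) <;> ext <;> simp
  · rw [io_one] at h ⊢
    refine ⟨lin2 (-(s * z.2) / z.1 ^ 2) (s / z.1) (-t / z.1 ^ 2) 0, ?_, by
      rw [lin2_det]; field_simp; ring⟩
    have e : tr a (a + 1) s t = fun z => (s * z.2 * (z.1)⁻¹, t * (z.1)⁻¹) := by
      funext z
      have e1 : a + 1 + 1 = a + 2 := by rw [add_assoc]; rfl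
      have e2 : a + 1 + 2 = a := by rw [add_assoc]; exact add_zero a
      simp [tr, e1, e2, div_eq_mul_inv]
    rw [e, lin2_eq]
    have g := (hasDerivAt_inv h).comp_hasFDerivAt z f1
    refine ((f2.mul g).congr_fderiv ?_).prodMk ((g.const_mul t).congr_fderiv ?_) <;> ext <;>
      simp <;> field_simp
  · rw [io_two] at h ⊢
    have hs : s ≠ 0 := left_ne_zero_of_mul h
    have hz : z.2 ≠ 0 := right_ne_zero_of_mul h
    refine ⟨lin2 0 (-s / (s * z.2) ^ 2) (t / (s * z.2)) (-(t * z.1 * s) / (s * z.2) ^ 2), ?_, by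
      rw [lin2_det]; field_simp; ring⟩
    have e : tr a (a + 2) s t = fun z => ((s * z.2)⁻¹, t * (z.1 * (s * z.2)⁻¹)) := by
      funext z
      have e1 : a + 2 + 1 = a := by rw [add_assoc]; exact add_zero a
      have e2 : a + 2 + 2 = a + 1 := by rw [add_assoc]; rfl
      simp only [tr, e1, e2, div_eq_mul_inv, io_self, io_one, io_two, one_mul]
    rw [e, lin2_eq]
    have g := (hasDerivAt_inv h).comp_hasFDerivAt z f2
    refine (g.congr_fderiv ?_).prodMk (((f1.mul g).const_mul t).congr_fderiv ?_) <;> ext <;>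
      simp <;> field_simp

/-- splitting of four space in two planes -/
noncomputable def sp : E4 ≃L[ℝ] (ℝ × ℝ) × (ℝ × ℝ) :=
  LinearEquiv.toContinuousLinearEquiv
    { toFun := fun w => ((w 0, w 1), (w 2, w 3))
      invFun := fun z => !₂[z.1.1, z.1.2, z.2.1, z.2.2]
      map_add' := by intro u v; simp
      map_smul' := by intro c v; simp
      left_inv := by intro w; ext i; fin_cases i <;> simp
      right_inv := by intro z; simp }

theorem sp_apply (w : E4) : sp w = ((w 0, w 1), (w 2, w 3)) := rfl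

theorem sp_symm_apply (z : (ℝ × ℝ) × (ℝ × ℝ)) :
    sp.symm z = !₂[z.1.1, z.1.2, z.2.1, z.2.2] := rfl

theorem oriented_Gr : OrientedAtlas Gr := by
  rintro _ ⟨⟨a, b, e⟩, rfl⟩ _ ⟨⟨a', b', e'⟩, rfl⟩ w hw
  have pos : ∀ v ∈ ((chart (a, b, e)).symm.trans (chart (a', b', e'))).source,
      0 < sg e' * (sg e * io a (v 0) (v 1) a' * io b (v 2) (sg e * v 3) b') := by
    intro v hv
    have h1 : (chart (a, b, e)).symm v ∈ (chart (a', b', e')).source := hv.2
    rw [mem_chart, chart_symm_apply, qq_pos_iff (invX_ne _ _ _) (invY_ne _ _ _)] at h1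
    simpa [invX, invY] using h1
  have n1 : ∀ v ∈ ((chart (a, b, e)).symm.trans (chart (a', b', e'))).source,
      io a (v 0) (v 1) a' ≠ 0 := by
    intro v hv h
    simpa [h] using pos v hv
  have n2 : ∀ v ∈ ((chart (a, b, e)).symm.trans (chart (a', b', e'))).source,
      io b (v 2) (sg e * v 3) b' ≠ 0 := by
    intro v hv h
    simpa [h] using pos v hv
  obtain ⟨L1, h1, d1⟩ := tr_deriv a a' 1 1 (sp w).1 (by simpa [sp_apply] using n1 w hw)
  obtain ⟨L2, h2, d2⟩ := tr_deriv b b' (sg e) (sg e') (sp w).2 (by simpa [sp_apply] using n2 w hw)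
  have h3 : HasFDerivAt (sp.symm ∘ Prod.map (tr a a' 1 1) (tr b b' (sg e) (sg e')) ∘ sp)
      ((sp.symm : ((ℝ × ℝ) × (ℝ × ℝ)) →L[ℝ] E4).comp ((L1.prodMap L2).comp
        (sp : E4 →L[ℝ] (ℝ × ℝ) × (ℝ × ℝ)))) w :=
    sp.symm.hasFDerivAt.comp w ((h1.prodMap _ h2).comp w sp.hasFDerivAt)
  have h4 : ((chart (a, b, e)).symm.trans (chart (a', b', e')) : E4 → E4) =ᶠ[𝓝 w]
      (sp.symm ∘ Prod.map (tr a a' 1 1) (tr b b' (sg e) (sg e')) ∘ sp) := by
    filter_upwards [((chart (a, b, e)).symm.trans (chart (a', b', e'))).open_source.mem_nhds hw]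
      with v hv
    have := sg_ne_zero e
    rw [OpenPartialHomeomorph.trans_apply, chart_apply, chart_symm_apply,
      chartFun_qq _ (by simpa [invX, this] using n1 v hv) (by simpa [invY] using n2 v hv)]
    simp only [Function.comp_apply, sp_apply, sp_symm_apply, Prod.map, tr, rat, invX, invY,
      one_mul, PiLp.smul_apply, smul_eq_mul, mul_div_mul_left _ _ this]
  rw [(h3.congr_of_eventuallyEq h4).fderiv]
  have h5 := LinearMap.det_conj (L1.toLinearMap.prodMap L2.toLinearMap) sp.symm.toLinearEquiv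
  have h6 : LinearMap.det (L1.toLinearMap.prodMap L2.toLinearMap) = L1.det * L2.det :=
    LinearMap.det_prodMap _ _
  rw [h6, d1, d2] at h5
  refine lt_of_lt_of_eq ?_ h5.symm
  simp only [sp_apply, one_mul]
  have p := pos w hw
  have m1 := n1 w hw
  have m2 := n2 w hw
  set d := io a (w 0) (w 1) a'
  set d' := io b (w 2) (sg e * w 3) b'
  have : 1 / d ^ 3 * (sg e * sg e' / d' ^ 3) = sg e' * (sg e * d * d') / (d * d') ^ 4 := by
    field_simp
  rw [this]
  positivity

end Pool.Agent.Work.MP_7ba843_gt
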