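import Pool.Agent.Work.MP_7ba843_gt.Logs

/-! Double covers over wedges of circles, and the abstract obstruction. -/

open Set Topology unitInterval Real

namespace Pool.Agent.Work.MP_7ba843_gt

theorem log_of_homotopy {Y : Type} [TopologicalSpace Y] (H : I × Y → Circle)
    (hH : Continuous H) :
    ∃ h : Y → ℝ, Continuous h ∧ ∀ y, H (1, y) = H (0, y) * Circle.exp (h y) := by
  let K : C(I × Y, Circle) := ⟨fun q => H q / H (0, q.2), by fun_prop⟩
  have h0 : ∀ y, K (0, y) = Circle.exp ((ContinuousMap.const Y (0 : ℝ)) y) := by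
    intro y; simp [K]
  let L := Circle.isCoveringMap_exp.liftHomotopy K (ContinuousMap.const Y (0 : ℝ)) h0
  refine ⟨fun y => L (1, y), by fun_prop, fun y => ?_⟩
  have := congrFun (Circle.isCoveringMap_exp.liftHomotopy_lifts K _ h0) (1, y)
  simp only [Function.comp_apply] at this
  rw [this]
  simp [K]

theorem circle_degree (g : Circle → Circle) (hg : Continuous g) :
    ∃ (d : ℤ) (h : Circle → ℝ), Continuous h ∧ ∀ z, g z = z ^ d * Circle.exp (h z) := by
  obtain ⟨c, hc⟩ := Circle.exp_surjective (g (Circle.exp 0))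
  obtain ⟨F, ⟨-, hF⟩, -⟩ := Circle.isCoveringMap_exp.existsUnique_continuousMap_lifts
    (⟨fun t : ℝ => g (Circle.exp t), by fun_prop⟩ : C(ℝ, Circle)) 0 c hc
  have hF' : ∀ t, Circle.exp (F t) = g (Circle.exp t) := fun t => congrFun hF t
  have h1 : ∀ t, Circle.exp (F (t + 2 * π) - F t) = 1 := by
    intro t
    rw [Circle.exp_sub, hF', hF', Circle.exp_add_two_pi, div_self']
  obtain ⟨d, hd⟩ := Circle.exp_eq_one.1 (h1 0)
  have h2 : ∀ t, F (t + 2 * π) - F t = d * (2 * π) := by
    intro t
    rw [← hd]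
    exact Circle.isCoveringMap_exp.const_of_comp (g := fun t => F (t + 2 * π) - F t)
      (by fun_prop) (fun a b => by rw [h1, h1]) t 0
  have per : Function.Periodic (fun t => F t - d * t) (2 * π) := by
    intro t
    have := h2 t
    simp only
    linarith
  have h3 : ∀ t, F (Complex.arg (Circle.exp t)) - d * Complex.arg (Circle.exp t) = F t - d * t := by
    intro t
    obtain ⟨m, hm⟩ := Circle.exp_eq_exp.1 (Circle.exp_arg (Circle.exp t))
    rw [hm]
    exact per.int_mul m t
  refine ⟨d, fun z => F (Complex.arg z) - d * Complex.arg z, ?_, fun z => ?_⟩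
  · rw [Circle.isAddQuotientCoveringMap_exp.toIsQuotientMap.continuous_iff]
    have : (fun z : Circle => F (Complex.arg z) - d * Complex.arg z) ∘ Circle.exp =
        fun t => F t - d * t := funext h3
    rw [this]
    fun_prop
  · rw [Circle.exp_sub, hF', Circle.exp_intCast_mul, Circle.exp_arg]
    simp

theorem circleLike_of_homeo {X : Type} [TopologicalSpace X] {H : Set X}
    (e : H ≃ₜ (Circle × Metric.closedBall (0 : ℂ) 1)) : CircleLike H := by
  classical
  refine ⟨fun x => if hx : x ∈ H then (e ⟨x, hx⟩).1 else 1, fun f hf => ?_⟩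
  have hf' : Continuous fun y : H => f y := continuousOn_iff_continuous_domRestrict.1 hf
  have mem : ∀ (t : I) (v : Metric.closedBall (0 : ℂ) 1),
      (t : ℝ) • (v : ℂ) ∈ Metric.closedBall (0 : ℂ) 1 := by
    intro t v
    have h1 := mem_closedBall_zero_iff.1 v.2
    rw [mem_closedBall_zero_iff, norm_smul, Real.norm_eq_abs, abs_of_nonneg t.2.1]
    exact mul_le_one₀ t.2.2 (norm_nonneg _) h1
  let K : I × H → Circle := fun q =>
    f (e.symm ((e q.2).1, ⟨(q.1 : ℝ) • ((e q.2).2 : ℂ), mem _ _⟩))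
  have Kc : Continuous K := by
    apply hf'.comp
    fun_prop
  obtain ⟨h, hc, hh⟩ := log_of_homotopy K Kc
  let g : Circle → Circle := fun z => f (e.symm (z, ⟨0, by simp⟩))
  have gc : Continuous g := by
    apply hf'.comp
    fun_prop
  obtain ⟨d, k, kc, hk⟩ := circle_degree g gc
  refine ⟨d, fun x => if hx : x ∈ H then k (e ⟨x, hx⟩).1 + h ⟨x, hx⟩ else 0, ?_, fun x hx => ?_⟩
  · rw [continuousOn_iff_continuous_domRestrict]
    have : (H.domRestrict fun x => if hx : x ∈ H then k (e ⟨x, hx⟩).1 + h ⟨x, hx⟩ else 0) =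
        fun y : H => k (e y).1 + h y := by
      funext y; simp [Set.domRestrict, y.2]
    rw [this]
    fun_prop
  · have h1 := hh ⟨x, hx⟩
    have h2 : K (1, ⟨x, hx⟩) = f x := by simp [K]
    have h3 : K (0, ⟨x, hx⟩) = g (e ⟨x, hx⟩).1 := by simp [K, g]
    rw [h2, h3, hk] at h1
    simp only [Pi.div_apply, Pi.pow_apply, hx, dif_pos, h1, Circle.exp_add]
    rw [mul_assoc, mul_div_cancel_left]

/-- a two sheeted covering with its deck involution -/
structure DC {E X : Type} [TopologicalSpace E] [TopologicalSpace X] (p : E → X) (ρ : E → E) :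
    Prop where
  cov : IsCoveringMap p
  surj : Function.Surjective p
  cont : Continuous ρ
  fib : ∀ e e', p e = p e' ↔ e' = e ∨ e' = ρ e
  ne : ∀ e, ρ e ≠ e
  inv : ∀ e, ρ (ρ e) = e

/-- the loop around one petal -/
noncomputable def petal {k : ℕ} (j : Fin k) : C(I, Rose k) where
  toFun t := ⟨Pi.mulSingle j (Circle.exp (2 * π * t)), by
    intro a b ha hb
    have h : ∀ c, (Pi.mulSingle j (Circle.exp (2 * π * t)) : Fin k → Circle) c ≠ 1 → c = j := by
      intro c hc
      by_contra hne
      exact hc (Pi.mulSingle_eq_of_ne hne _)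
    rw [h a ha, h b hb]⟩
  continuous_toFun := by
    apply Continuous.subtype_mk
    refine continuous_pi fun c => ?_
    by_cases hc : c = j
    · subst hc
      simp only [Pi.mulSingle_eq_same]
      fun_prop
    · simp only [Pi.mulSingle_eq_of_ne hc]
      fun_prop

theorem petal_val {k : ℕ} (j : Fin k) (t : I) :
    (petal j t : Fin k → Circle) = Pi.mulSingle j (Circle.exp (2 * π * t)) := rfl

theorem exists_petal {k : ℕ} [Nonempty (Fin k)] (w : Rose k) : ∃ j t, w = petal j t := by
  by_cases h : ∀ i, (w : Fin k → Circle) i = 1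
  · refine ⟨Classical.arbitrary _, 0, Subtype.ext ?_⟩
    rw [petal_val]
    funext i
    simp [h i]
  · push Not at h
    obtain ⟨i, hi⟩ := h
    obtain ⟨θ, hθ⟩ := Circle.exp_surjective ((w : Fin k → Circle) i)
    refine ⟨i, ⟨Int.fract (θ / (2 * π)), Int.fract_nonneg _, (Int.fract_lt_one _).le⟩,
      Subtype.ext ?_⟩
    rw [petal_val]
    funext c
    by_cases hc : c = i
    · subst hc
      rw [Pi.mulSingle_eq_same, ← hθ, Circle.exp_eq_exp]
      refine ⟨⌊θ / (2 * π)⌋, ?_⟩
      simp only [Int.fract]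
      field_simp
      ring
    · rw [Pi.mulSingle_eq_of_ne hc]
      by_contra hne
      exact hc (w.2 c i hne hi)

theorem exp_eq_one_I {t : I} (h : Circle.exp (2 * π * t) = 1) : t = 0 ∨ t = 1 := by
  by_cases h1 : t = 1
  · exact Or.inr h1
  left
  have ht : (t : ℝ) < 1 := lt_of_le_of_ne t.2.2 fun h' => h1 (Subtype.ext h')
  have := Circle.exp_injOn_Ico (a := 0) (b := 2 * π) (by simp)
    (x₁ := 2 * π * t) (x₂ := 0) ⟨by have := t.2.1; positivity, by nlinarith [pi_pos]⟩
    ⟨le_rfl, by positivity⟩ (by simpa using h)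
  apply Subtype.ext
  have hp : (2 * π) ≠ 0 := by positivity
  simpa [hp] using this

theorem exp_inj_I {t t' : I} (h1 : Circle.exp (2 * π * t) ≠ 1)
    (h : Circle.exp (2 * π * t) = Circle.exp (2 * π * t')) : t = t' := by
  have lt : ∀ s : I, Circle.exp (2 * π * s) ≠ 1 → (s : ℝ) < 1 := by
    intro s hs
    refine lt_of_le_of_ne s.2.2 fun h' => hs ?_
    rw [h']; simp
  have ht := lt t h1
  have ht' := lt t' (h ▸ h1)
  have := Circle.exp_injOn_Ico (a := 0) (b := 2 * π) (by simp)
    (x₁ := 2 * π * t) (x₂ := 2 * π * t') ⟨by have := t.2.1; positivity, by nlinarith [pi_pos]⟩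
    ⟨by have := t'.2.1; positivity, by nlinarith [pi_pos]⟩ h
  apply Subtype.ext
  have hp : (2 * π) ≠ 0 := by positivity
  exact mul_left_cancel₀ hp this

theorem circle_exp_pi : Circle.exp π = -1 := by
  apply Circle.ext
  simp [Complex.exp_pi_mul_I]

theorem rose_lift {E X : Type} [TopologicalSpace E] [TopologicalSpace X] {p : E → X}
    {ρ : E → E} (h : DC p ρ) {k : ℕ} (s : C(Rose k, X)) :
    ∃ φ : Rose k → Circle, Continuous φ ∧ ∃ L : {q : Rose k × Circle // q.2 ^ 2 = φ q.1} → E,
      Continuous L ∧ ∀ q, p (L q) = s q.1.1 := by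
  classical
  let b : Rose k := ⟨1, fun i j hi _ => (hi rfl).elim⟩
  obtain ⟨e0, he0⟩ := h.surj (s b)
  rcases isEmpty_or_nonempty (Fin k) with hk | hk
  · refine ⟨fun _ => 1, continuous_const, fun _ => e0, continuous_const, fun q => ?_⟩
    rw [he0]
    congr 1
    exact Subtype.ext (Subsingleton.elim _ _)
  have p0 : ∀ j : Fin k, petal j 0 = b := by
    intro j; apply Subtype.ext; rw [petal_val]; simp [b]
  have p1 : ∀ j : Fin k, petal j 1 = b := by
    intro j; apply Subtype.ext; rw [petal_val]; simp [b]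
  have h0 : ∀ j : Fin k, (s.comp (petal j)) 0 = p e0 := by
    intro j; simp [p0, he0]
  let Γ : Fin k → C(I, E) := fun j => h.cov.liftPath (s.comp (petal j)) e0 (h0 j)
  have Γ0 : ∀ j, Γ j 0 = e0 := fun j => h.cov.liftPath_zero ..
  have Γp : ∀ j t, p (Γ j t) = s (petal j t) := fun j t =>
    congrFun (h.cov.liftPath_lifts (s.comp (petal j)) e0 (h0 j)) t
  have Γ1 : ∀ j, Γ j 1 ≠ e0 → Γ j 1 = ρ e0 := by
    intro j hj
    have := (h.fib e0 (Γ j 1)).1 (by rw [Γp, p1, he0])
    tauto
  let ε : Fin k → ℝ := fun j => if Γ j 1 = e0 then 0 else 1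
  let φ : Rose k → Circle := fun w => ∏ j, if Γ j 1 = e0 then 1 else (w : Fin k → Circle) j
  have φc : Continuous φ := by
    refine continuous_finsetProd _ fun j _ => ?_
    split_ifs
    · fun_prop
    · exact (continuous_apply j).comp continuous_subtype_val
  have φp : ∀ j t, φ (petal j t) = Circle.exp (π * ε j * t) ^ 2 := by
    intro j t
    simp only [φ]
    rw [Finset.prod_eq_single j]
    · rw [petal_val, Pi.mulSingle_eq_same]
      by_cases hj : Γ j 1 = e0
      · simp [ε, hj]
      · simp only [ε, hj, if_false]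
        rw [← Circle.exp_natCast_mul]
        congr 1
        push_cast
        ring
    · intro c _ hc
      rw [petal_val, Pi.mulSingle_eq_of_ne hc]
      simp
    · simp
  let sg : Bool → Circle := fun η => if η then 1 else -1
  have sg2 : ∀ η, sg η ^ 2 = 1 := by
    intro η; cases η <;> simp [sg]
  let par : (Fin k × Bool) × I → {q : Rose k × Circle // q.2 ^ 2 = φ q.1} := fun a =>
    ⟨(petal a.1.1 a.2, sg a.1.2 * Circle.exp (π * ε a.1.1 * a.2)), by
      simp only [mul_pow, sg2, φp, one_mul]⟩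
  have parc : Continuous par := by
    rw [continuous_prod_of_discrete_left]
    intro a
    apply Continuous.subtype_mk
    fun_prop
  have pars : Function.Surjective par := by
    rintro ⟨⟨w, u⟩, hu⟩
    obtain ⟨j, t, rfl⟩ := exists_petal w
    have hu' : u ^ 2 = Circle.exp (π * ε j * t) ^ 2 := by rw [← φp]; exact hu
    have hu2 : (u : ℂ) ^ 2 = (Circle.exp (π * ε j * t) : ℂ) ^ 2 := by
      rw [← Circle.coe_pow, hu', Circle.coe_pow]
    rcases sq_eq_sq_iff_eq_or_eq_neg.1 hu2 with h1 | h1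
    · refine ⟨((j, true), t), Subtype.ext (Prod.ext rfl ?_)⟩
      apply Circle.ext
      simp only [par, sg, if_true, one_mul, h1]
    · refine ⟨((j, false), t), Subtype.ext (Prod.ext rfl ?_)⟩
      apply Circle.ext
      simp [par, sg, h1]
  let Lp : (Fin k × Bool) × I → E := fun a => if a.1.2 then Γ a.1.1 a.2 else ρ (Γ a.1.1 a.2)
  have Lpc : Continuous Lp := by
    rw [continuous_prod_of_discrete_left]
    rintro ⟨j, η⟩
    have := h.cont
    cases η
    · simp only [Lp, Bool.false_eq_true, if_false]; fun_prop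
    · simp only [Lp, if_true]; fun_prop
  have n1 : (-1 : Circle) ≠ 1 := Circle.neg_ne_self 1
  have ends : ∀ a : (Fin k × Bool) × I, (a.2 = 0 ∨ a.2 = 1) →
      Lp a = if (par a).1.2 = 1 then e0 else ρ e0 := by
    rintro ⟨⟨j, η⟩, t⟩ ht
    rcases ht with rfl | rfl
    · cases η <;> simp [Lp, par, sg, Γ0, n1]
    · by_cases hj : Γ j 1 = e0
      · cases η <;> simp [Lp, par, sg, ε, hj, n1]
      · cases η <;> simp [Lp, par, sg, ε, Γ1 j hj, circle_exp_pi, n1, h.inv, h.ne]
  have wd : ∀ a a', par a = par a' → Lp a = Lp a' := by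
    rintro ⟨⟨j, η⟩, t⟩ ⟨⟨j', η'⟩, t'⟩ hpar
    have e1 : (Pi.mulSingle j (Circle.exp (2 * π * t)) : Fin k → Circle) =
        Pi.mulSingle j' (Circle.exp (2 * π * t')) :=
      congrArg (fun q : {q : Rose k × Circle // q.2 ^ 2 = φ q.1} => (q.1.1 : Fin k → Circle)) hpar
    by_cases ht : Circle.exp (2 * π * t) = 1
    · have ht' : Circle.exp (2 * π * t') = 1 := by
        have := congrFun e1 j'
        rw [ht, Pi.mulSingle_eq_same] at this
        simpa using this.symm
      rw [ends _ (exp_eq_one_I ht), ends _ (exp_eq_one_I ht'), hpar]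
    · have e2 := congrFun e1 j
      rw [Pi.mulSingle_eq_same] at e2
      have hj : j = j' := by
        by_contra hne
        rw [Pi.mulSingle_eq_of_ne hne] at e2
        exact ht e2
      subst hj
      rw [Pi.mulSingle_eq_same] at e2
      have := exp_inj_I ht e2
      subst this
      have e3 : sg η * Circle.exp (π * ε j * t) = sg η' * Circle.exp (π * ε j * t) :=
        congrArg (fun q : {q : Rose k × Circle // q.2 ^ 2 = φ q.1} => q.1.2) hpar
      have e4 := mul_right_cancel e3
      have : η = η' := by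
        cases η <;> cases η' <;> simp_all [sg, n1.symm]
      rw [this]
  have Lpar : (Lp ∘ Function.surjInv pars) ∘ par = Lp := by
    funext a
    exact wd _ _ (Function.surjInv_eq pars _)
  refine ⟨φ, φc, Lp ∘ Function.surjInv pars, ?_, fun q => ?_⟩
  · rw [(parc.isClosedMap.isQuotientMap parc pars).continuous_iff, Lpar]
    exact Lpc
  · obtain ⟨a, rfl⟩ := pars q
    have := congrFun Lpar a
    simp only [Function.comp_apply] at this ⊢
    rw [this]
    obtain ⟨⟨j, η⟩, t⟩ := a
    cases η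
    · simp only [Lp, Bool.false_eq_true, if_false, par]
      rw [← Γp]
      exact ((h.fib _ _).2 (Or.inr rfl)).symm
    · simp only [Lp, if_true, par, Γp]

theorem sector {E X : Type} [TopologicalSpace E] [TopologicalSpace X] {p : E → X}
    {ρ : E → E} (h : DC p ρ) {A S : Set X} (hSA : S ⊆ A) {k : ℕ}
    (e : ContinuousMap.HomotopyEquiv A (Rose k)) (Γ : C(I, E)) (hΓ : ∀ t, p (Γ t) ∈ S)
    (hΓ1 : Γ 1 = ρ (Γ 0)) : ∃ f : X → Circle, ContinuousOn f A ∧ f ∉ Lg S := by
  classical
  obtain ⟨φ, φc, L, Lc, hL⟩ := rose_lift h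
    ((⟨Subtype.val, continuous_subtype_val⟩ : C(A, X)).comp e.invFun)
  refine ⟨fun x => if hx : x ∈ A then φ (e.toFun ⟨x, hx⟩) else 1, ?_, ?_⟩
  · rw [continuousOn_iff_continuous_domRestrict]
    have : (A.domRestrict fun x => if hx : x ∈ A then φ (e.toFun ⟨x, hx⟩) else 1) =
        fun y : A => φ (e.toFun y) := by
      funext y; simp [Set.domRestrict, y.2]
    rw [this]
    fun_prop
  rintro ⟨g, gc, hg⟩
  have gc' : Continuous fun y : S => g y := continuousOn_iff_continuous_domRestrict.1 gc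
  let ι : S → A := Set.inclusion hSA
  have ιc : Continuous ι := continuous_inclusion hSA
  let ℓ : C(S, E) := ⟨fun y => L ⟨(e.toFun (ι y), Circle.exp (g y / 2)), by
    have := hg y y.2
    simp only [hSA y.2, dif_pos] at this
    rw [← Circle.exp_natCast_mul]
    simp only [ι]
    rw [show ((2 : ℕ) : ℝ) * (g y / 2) = g y by push_cast; ring, ← this]⟩, by
      apply Lc.comp
      apply Continuous.subtype_mk
      exact (e.toFun.continuous.comp ιc).prodMk
        (Circle.exp.continuous.comp (gc'.div_const 2))⟩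
  obtain ⟨H⟩ := e.left_inv
  let K : C(I × S, X) := ⟨fun q => (H (q.1, ι q.2) : X), by fun_prop⟩
  have K0 : ∀ y, K (0, y) = p (ℓ y) := by
    intro y
    simp [K, ℓ, hL]
  let τ := h.cov.liftHomotopy K ℓ K0
  have hτ : ∀ y : S, p (τ (1, y)) = y := by
    intro y
    have := congrFun (h.cov.liftHomotopy_lifts K ℓ K0) (1, y)
    simp only [Function.comp_apply] at this
    rw [this]
    simp [K, ι]
  let Δ : I → E := fun t => τ (1, ⟨p (Γ t), hΓ t⟩)
  have pc := h.cov.continuous
  have Δc : Continuous Δ := by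
    apply τ.continuous.comp
    fun_prop
  have hp01 : p (Γ 1) = p (Γ 0) := by
    rw [hΓ1]; exact ((h.fib _ _).2 (Or.inr rfl)).symm
  have Δ01 : Δ 1 = Δ 0 := by
    simp only [Δ, hp01]
  have pΔ : ∀ t, p (Δ t) = p (Γ t) := fun t => hτ _
  rcases (h.fib (Δ 0) (Γ 0)).1 (pΔ 0) with h0 | h0
  · have := h.cov.eq_of_comp_eq Γ.continuous Δc (funext fun t => (pΔ t).symm) 0 h0
    apply h.ne (Γ 0)
    rw [← hΓ1, this, Δ01]
  · have := h.cov.eq_of_comp_eq Γ.continuous (h.cont.comp Δc)
      (funext fun t => (pΔ t).symm.trans ((h.fib _ _).2 (Or.inr rfl))) 0 h0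
    apply h.ne (Γ 0)
    rw [← hΓ1, this]
    simp only [Function.comp_apply, Δ01]

theorem lg_univ {E X : Type} [TopologicalSpace E] [TopologicalSpace X] {p : E → X}
    {ρ : E → E} (h : DC p ρ) [SimplyConnectedSpace E] [LocallyPathConnectedSpace E]
    (G : X → Circle) (hG : Continuous G) : G ∈ Lg (univ : Set X) := by
  have pc := h.cov.continuous
  have sc := h.cont
  obtain ⟨e0⟩ : Nonempty E := inferInstance
  obtain ⟨c, hc⟩ := Circle.exp_surjective (G (p e0))
  obtain ⟨F, ⟨-, hF⟩, -⟩ := Circle.isCoveringMap_exp.existsUnique_continuousMap_lifts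
    (⟨fun e => G (p e), by fun_prop⟩ : C(E, Circle)) e0 c hc
  have hF' : ∀ e, Circle.exp (F e) = G (p e) := fun e => congrFun hF e
  have pρ : ∀ e, p (ρ e) = p e := fun e => ((h.fib _ _).2 (Or.inr rfl)).symm
  have h1 : ∀ e, F (ρ e) - F e = F (ρ e0) - F e0 := fun e =>
    Circle.isCoveringMap_exp.const_of_comp (g := fun e => F (ρ e) - F e) (by fun_prop)
      (fun a b => by simp [hF', pρ]) e e0
  have h2 : ∀ e, F (ρ e) = F e := by
    intro e
    have a := h1 e
    have b := h1 (ρ e)
    rw [h.inv] at b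
    linarith
  have h3 : (F ∘ Function.surjInv h.surj) ∘ p = F := by
    funext e
    rcases (h.fib e _).1 (Function.surjInv_eq h.surj (p e)).symm with a | a
    · simp [a]
    · simp [a, h2]
  refine ⟨F ∘ Function.surjInv h.surj, ?_, fun x _ => ?_⟩
  · rw [continuousOn_univ, (h.cov.isOpenMap.isQuotientMap pc h.surj).continuous_iff, h3]
    exact F.continuous
  · simp [hF', Function.surjInv_eq]

theorem no_weakTrisection {E X : Type} [TopologicalSpace E] [TopologicalSpace X] {p : E → X}
    {ρ : E → E} (h : DC p ρ) [SimplyConnectedSpace E] [LocallyPathConnectedSpace E]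
    [CompactSpace X] [T2Space X] {S : Set X} (hS : IsPreconnected S) (Γ : C(I, E))
    (hΓ : ∀ t, p (Γ t) ∈ S) (hΓ1 : Γ 1 = ρ (Γ 0)) :
    ¬ ∃ T : Fin 3 → Set X, WeakTrisection S T := by
  rintro ⟨T, hc, hu, hr, hh, hi⟩
  have sub : ∀ i, S ⊆ T i := fun i => by rw [← hi]; exact iInter_subset _ i
  have hf : ∀ i, ∃ f : X → Circle, ContinuousOn f (T i) ∧ f ∉ Lg S := by
    intro i
    obtain ⟨k, ⟨e⟩⟩ := hr i
    exact sector h (sub i) e Γ hΓ hΓ1
  choose f fc fn using hf
  have cl : ∀ i j, i ≠ j → CircleLike (T i ∩ T j) := fun i j hij =>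
    (hh i j hij).elim circleLike_of_homeo
  refine no_cover (A := T 0) (B := T 1) (C := T 2) (hc 0).isClosed (hc 1).isClosed
    (hc 2).isClosed ?_ ?_ hS (lg_univ h) (fc 0) (fc 1) (fc 2) (fn 0) (fn 1) (fn 2)
    (cl 0 1 (by decide)) (cl 1 2 (by decide)) (cl 2 0 (by decide))
  · rw [← hu]
    ext x
    simp [Fin.exists_fin_succ, or_assoc]
  · rw [← hi]
    ext x
    simp [Fin.forall_fin_succ, and_assoc]

end Pool.Agent.Work.MP_7ba843_gt
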