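import Mathlib

/-! Definitions used in the statement for MP_7ba843_gt. -/

open Set Topology

namespace Pool.Agent.Work.MP_7ba843_gt

/-- The atlas of the 4-manifold `X` is oriented: every transition map between two charts of
the atlas has positive Jacobian determinant at every point of its domain. -/
def OrientedAtlas (X : Type) [TopologicalSpace X]
    [ChartedSpace (EuclideanSpace ℝ (Fin 4)) X] : Prop :=
  ∀ e ∈ atlas (EuclideanSpace ℝ (Fin 4)) X, ∀ e' ∈ atlas (EuclideanSpace ℝ (Fin 4)) X,
    ∀ w ∈ (e.symm.trans e').source, 0 < (fderiv ℝ (e.symm.trans e') w).det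

/-- `X` has a finite CW structure whose alternating count of cells is `c`,
that is, the Euler characteristic of `X` is `c`. -/
def HasEulerChar (X : Type) [TopologicalSpace X] (c : ℤ) : Prop :=
  ∃ K : CWComplex (univ : Set X), Finite (Σ n, K.cell n) ∧
    ∑ᶠ n, (-1 : ℤ) ^ n * (Nat.card (K.cell n) : ℤ) = c

/-- The wedge of `k` circles, as the union of the `k` coordinate circles of the `k`-torus
(a point for `k = 0`). -/
def Rose (k : ℕ) : Set (Fin k → Circle) := {z | ∀ i j, z i ≠ 1 → z j ≠ 1 → i = j}

/-- Topological conditions satisfied by every genus one trisection `X = T 0 ∪ T 1 ∪ T 2`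
with core `S`: the three sectors are compact and cover `X`, each sector is homotopy equivalent
to a wedge of some number `k` of circles (as is the boundary connected sum of `k` copies of
`S¹ × B³`), each pairwise intersection is homeomorphic to the solid torus `S¹ × D²`,
and the triple intersection is `S`. -/
def WeakTrisection {X : Type} [TopologicalSpace X] (S : Set X) (T : Fin 3 → Set X) : Prop :=
  (∀ i, IsCompact (T i)) ∧ (⋃ i, T i) = univ ∧
  (∀ i, ∃ k : ℕ, Nonempty (ContinuousMap.HomotopyEquiv (T i) (Rose k))) ∧
  (∀ i j, i ≠ j → Nonempty ((T i ∩ T j : Set X) ≃ₜ (Circle × Metric.closedBall (0 : ℂ) 1))) ∧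
  (⋂ i, T i) = S

end Pool.Agent.Work.MP_7ba843_gt
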