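import Pool.Agent.Work.MP_7ba843_gt.Torus

/-! The torus carries the fundamental group. -/

open Set Topology Complex unitInterval
open scoped ComplexConjugate

namespace Pool.Agent.Work.MP_7ba843_gt

theorem pi1_surj {E X : Type} [TopologicalSpace E] [TopologicalSpace X] {p : E → X}
    {ρ : E → E} (h : DC p ρ) [SimplyConnectedSpace E] {S : Set X} (x : S) (Γ : C(I, E))
    (hΓ : ∀ t, p (Γ t) ∈ S) (hΓ1 : Γ 1 = ρ (Γ 0)) (hx : p (Γ 0) = x) :
    Function.Surjective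
      (FundamentalGroup.map (⟨Subtype.val, continuous_subtype_val⟩ : C(S, X)) x) := by
  intro g
  obtain ⟨γ, rfl⟩ : ∃ γ : Path (x : X) x, g = Path.Homotopic.Quotient.mk γ := by
    obtain ⟨γ⟩ := g
    exact ⟨γ, rfl⟩
  have pc := h.cov.continuous
  let pp : C(E, X) := ⟨p, pc⟩
  have γ0 : γ.toContinuousMap 0 = p (Γ 0) := by simp [hx]
  let Λ := h.cov.liftPath γ.toContinuousMap (Γ 0) γ0
  have Λ0 : Λ 0 = Γ 0 := h.cov.liftPath_zero ..
  have Λp : ∀ t, p (Λ t) = γ t := fun t =>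
    congrFun (h.cov.liftPath_lifts γ.toContinuousMap (Γ 0) γ0) t
  have key : ∀ (δ : Path x x) (Q : C(I, E)), Q 0 = Γ 0 → Q 1 = Λ 1 →
      (∀ t, p (Q t) = δ t) → FundamentalGroup.map
        (⟨Subtype.val, continuous_subtype_val⟩ : C(S, X)) x (Path.Homotopic.Quotient.mk δ) =
        Path.Homotopic.Quotient.mk γ := by
    intro δ Q Q0 Q1 hQ
    obtain ⟨H⟩ := SimplyConnectedSpace.paths_homotopic (⟨Q, Q0, Q1⟩ : Path (Γ 0) (Λ 1))
      (⟨Λ, Λ0, rfl⟩ : Path (Γ 0) (Λ 1))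
    change Path.Homotopic.Quotient.mk (δ.map continuous_subtype_val) = _
    apply Quotient.sound
    refine ⟨(H.compContinuousMap pp).cast ?_ ?_⟩
    · ext t; exact hQ t
    · ext t; exact Λp t
  rcases (h.fib (Γ 0) (Λ 1)).1 (by rw [Λp, hx]; simp) with e | e
  · exact ⟨_, key (Path.refl x) (ContinuousMap.const _ (Γ 0)) rfl e.symm fun t => hx⟩
  · refine ⟨_, key ⟨⟨fun t => ⟨p (Γ t), hΓ t⟩, by fun_prop⟩, Subtype.ext hx, Subtype.ext ?_⟩ Γ rfl
      (hΓ1.trans e.symm) fun t => rfl⟩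
    change p (Γ 1) = x
    rw [hΓ1, ← hx]
    exact ((h.fib _ _).2 (Or.inr rfl)).symm

theorem exists_loop (z : Circle) (ν : ℂ) : ∃ Γ : C(I, S2 × S2),
    (∀ t, ∃ w, pr (Γ t) = torus (w, ν)) ∧ Γ 1 = dk (Γ 0) ∧ pr (Γ 0) = torus (z, ν) := by
  let m : I → ℂ := fun t => half z * Circle.exp (Real.pi * t)
  have m0 : ∀ t, m t ≠ 0 := fun t => mul_ne_zero (half_ne z) (Circle.coe_ne_zero _)
  have mc : Continuous m := by simp only [m]; fun_prop
  have ms : ∀ t, m t = (z * Circle.exp (Real.pi * t) ^ 2 : Circle) * conj (m t) := by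
    intro t
    simp only [m, map_mul, Circle.coe_mul, Circle.coe_pow]
    linear_combination (Circle.exp (Real.pi * t) : ℂ) * half_spec z -
      (z * conj (half z) * Circle.exp (Real.pi * t)) * mul_conj_circle (Circle.exp (Real.pi * t))
  have c1 : Continuous fun t => vx (m t) ν := by unfold vx; fun_prop
  have c2 : Continuous fun t => vy (m t) ν 0 := by unfold vy; fun_prop
  refine ⟨⟨fun t => (nrm (vx (m t) ν), nrm (vy (m t) ν 0)), ?_⟩, fun t => ⟨z * Circle.exp (Real.pi * t) ^ 2, ?_⟩,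
    ?_, ?_⟩
  · exact continuous_iff_continuousAt.2 fun t =>
      (ContinuousAt.comp (f := fun t => vx (m t) ν) (continuousAt_nrm (vx_ne (m0 t) ν))
        c1.continuousAt).prodMk (ContinuousAt.comp (f := fun t => vy (m t) ν 0)
          (continuousAt_nrm (vy_ne (m0 t) ν 0)) c2.continuousAt)
  · exact (tube_eq (m0 t) (ms t) ν 0).symm
  · have e : m 1 = ((-1 : ℝ) : ℂ) * m 0 := by simp [m, Complex.exp_pi_mul_I]
    simp only [ContinuousMap.coe_mk, dk]
    rw [e, vx_smul, vy_smul, neg_one_smul, neg_one_smul, nrm_neg (vx_ne (m0 0) ν),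
      nrm_neg (vy_ne (m0 0) ν 0)]
  · have e : m 0 = half z := by simp [m]
    simp only [ContinuousMap.coe_mk, e]
    rfl

/-- the boundary torus -/
def core : Set Gr := torus '' (univ ×ˢ Metric.sphere 0 1)

theorem core_loop (x : core) : ∃ Γ : C(I, S2 × S2),
    (∀ t, pr (Γ t) ∈ core) ∧ Γ 1 = dk (Γ 0) ∧ pr (Γ 0) = x := by
  obtain ⟨_, ⟨z, ν⟩, ⟨-, hν⟩, rfl⟩ := x
  obtain ⟨Γ, h1, h2, h3⟩ := exists_loop z ν
  refine ⟨Γ, fun t => ?_, h2, h3⟩
  obtain ⟨w, hw⟩ := h1 t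
  exact ⟨(w, ν), ⟨mem_univ _, hν⟩, hw.symm⟩

theorem core_pi1 (x : core) : Function.Surjective
    (FundamentalGroup.map (⟨Subtype.val, continuous_subtype_val⟩ : C(core, Gr)) x) := by
  have := sc_prod
  obtain ⟨Γ, h1, h2, h3⟩ := core_loop x
  exact pi1_surj dc_pr x Γ h1 h2 h3

theorem core_preconnected : IsPreconnected core :=
  (isPreconnected_univ.prod (isPreconnected_sphere (by
    rw [← Module.finrank_eq_rank]; simp) _ _)).image _ continuous_torus.continuousOn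

theorem core_no : ¬ ∃ T : Fin 3 → Set Gr, WeakTrisection core T := by
  have := sc_prod
  have := lpc_prod
  obtain ⟨Γ, h1, h2, -⟩ := core_loop ⟨torus (1, 1), (1, 1), ⟨mem_univ _, by simp⟩, rfl⟩
  exact no_weakTrisection dc_pr core_preconnected Γ h1 h2

end Pool.Agent.Work.MP_7ba843_gt
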