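import Pool.Agent.Work.MP_7ba843_gt.Cover
import Pool.Agent.Work.MP_7ba843_gt.Sphere

/-! The space of rank one unit `3 × 3` matrices, doubly covered by `S² × S²`. -/

open Set Topology

namespace Pool.Agent.Work.MP_7ba843_gt

/-- real `3 × 3` arrays -/
abbrev Mat := Fin 3 → Fin 3 → ℝ

/-- the outer product of two unit vectors -/
def segre (q : S2 × S2) : Mat := fun i j => (q.1 : V) i * (q.2 : V) j

/-- the four manifold -/
abbrev Gr : Type := range segre

/-- the covering projection -/
def pr (q : S2 × S2) : Gr := ⟨segre q, mem_range_self q⟩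

/-- the deck involution -/
noncomputable def dk (q : S2 × S2) : S2 × S2 := (-q.1, -q.2)

theorem continuous_segre : Continuous segre := by
  unfold segre
  fun_prop

theorem continuous_pr : Continuous pr := continuous_segre.subtype_mk _

theorem pr_surj : Function.Surjective pr := by
  rintro ⟨_, q, rfl⟩
  exact ⟨q, rfl⟩

instance : CompactSpace Gr := isCompact_iff_compactSpace.1 (isCompact_range continuous_segre)

theorem connected_Gr : ConnectedSpace Gr := by
  have := sc_prod
  exact pr_surj.connectedSpace continuous_pr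

theorem sq_sum (x : S2) : (x : V) 0 ^ 2 + (x : V) 1 ^ 2 + (x : V) 2 ^ 2 = 1 := by
  have h := mem_sphere_zero_iff_norm.1 x.2
  have := EuclideanSpace.real_norm_sq_eq (x : V)
  rw [h, Fin.sum_univ_three] at this
  linarith

theorem pr_dk (q : S2 × S2) : pr (dk q) = pr q := by
  apply Subtype.ext
  funext i j
  simp [pr, dk, segre]

theorem pr_eq_iff (q q' : S2 × S2) : pr q = pr q' ↔ q' = q ∨ q' = dk q := by
  constructor
  · intro h
    obtain ⟨x, y⟩ := q
    obtain ⟨x', y'⟩ := q'
    have e : ∀ i j, (x : V) i * (y : V) j = (x' : V) i * (y' : V) j := fun i j =>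
      congrFun (congrFun (congrArg Subtype.val h) i) j
    have hx := sq_sum x
    have hy := sq_sum y
    have hx' := sq_sum x'
    have hy' := sq_sum y'
    set c : ℝ := (y : V) 0 * (y' : V) 0 + (y : V) 1 * (y' : V) 1 + (y : V) 2 * (y' : V) 2 with hc
    set d : ℝ := (x : V) 0 * (x' : V) 0 + (x : V) 1 * (x' : V) 1 + (x : V) 2 * (x' : V) 2 with hd
    have ex : ∀ i, (x' : V) i = c * (x : V) i := by
      intro i
      linear_combination (-(x' : V) i) * hy' - (y' : V) 0 * e i 0 - (y' : V) 1 * e i 1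
        - (y' : V) 2 * e i 2
    have ey : ∀ j, (y' : V) j = d * (y : V) j := by
      intro j
      linear_combination (-(y' : V) j) * hx' - (x' : V) 0 * e 0 j - (x' : V) 1 * e 1 j
        - (x' : V) 2 * e 2 j
    have hdc : d = c := by
      rw [hd, ex 0, ex 1, ex 2]
      linear_combination c * hx
    have hc2 : c ^ 2 = 1 := by
      rw [ex 0, ex 1, ex 2] at hx'
      linear_combination hx' - c ^ 2 * hx
    rw [hdc] at ey
    rcases sq_eq_one_iff.1 hc2 with h1 | h1
    · left
      refine Prod.ext (Subtype.ext ?_) (Subtype.ext ?_)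
      · ext i; simp [ex, h1]
      · ext i; simp [ey, h1]
    · right
      refine Prod.ext (Subtype.ext ?_) (Subtype.ext ?_)
      · ext i; simp [ex, h1, dk]
      · ext i; simp [ey, h1, dk]
  · rintro (rfl | rfl)
    · rfl
    · exact (pr_dk q).symm

theorem dk_ne (q : S2 × S2) : dk q ≠ q := by
  intro h
  have h1 : ∀ i, -(q.1 : V) i = (q.1 : V) i := fun i =>
    congrArg (fun r : S2 × S2 => (r.1 : V) i) h
  have := sq_sum q.1
  have a := h1 0
  have b := h1 1
  have c := h1 2
  have a' : (q.1 : V) 0 = 0 := by linarith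
  have b' : (q.1 : V) 1 = 0 := by linarith
  have c' : (q.1 : V) 2 = 0 := by linarith
  rw [a', b', c'] at this
  norm_num at this

theorem dk_dk (q : S2 × S2) : dk (dk q) = q := by simp [dk]

theorem continuous_dk : Continuous dk := by
  unfold dk
  fun_prop

theorem cov_pr : IsCoveringMap pr := by
  let act : MulAction ℤˣ (S2 × S2) :=
    { smul := fun u q => if u = 1 then q else dk q
      one_smul := fun q => if_pos rfl
      mul_smul := by
        intro u v q
        change (if u * v = 1 then q else dk q) =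
          if u = 1 then (if v = 1 then q else dk q) else dk (if v = 1 then q else dk q)
        rcases Int.units_eq_one_or u with rfl | rfl <;>
          rcases Int.units_eq_one_or v with rfl | rfl <;> simp [dk_dk] }
  have sm : ∀ (u : ℤˣ) (q : S2 × S2), u • q = if u = 1 then q else dk q := fun _ _ => rfl
  have : ContinuousConstSMul ℤˣ (S2 × S2) := ⟨fun u => by
    simp only [sm]
    split_ifs
    · exact continuous_id
    · exact continuous_dk⟩
  have : IsCancelSMul ℤˣ (S2 × S2) := by
    rw [isCancelSMul_iff_eq_one_of_smul_eq]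
    intro u q h
    by_contra hu
    rw [sm, if_neg hu] at h
    exact dk_ne q h
  have hq : IsQuotientMap pr := continuous_pr.isClosedMap.isQuotientMap continuous_pr pr_surj
  refine (hq.isQuotientCoveringMap_of_properlyDiscontinuousSMul (G := ℤˣ) ?_).isCoveringMap
  intro a b
  rw [eq_comm, pr_eq_iff, MulAction.mem_orbit_iff]
  constructor
  · rintro (rfl | rfl)
    · exact ⟨1, one_smul _ _⟩
    · exact ⟨-1, by rw [sm, if_neg (by decide)]⟩
  · rintro ⟨u, rfl⟩
    rw [sm]
    split_ifs
    · exact Or.inl rfl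
    · exact Or.inr rfl

theorem dc_pr : DC pr dk :=
  ⟨cov_pr, pr_surj, continuous_dk, pr_eq_iff, dk_ne, dk_dk⟩

/-- a base point of the sphere -/
noncomputable def pole : S2 := ⟨EuclideanSpace.single 0 1, by simp⟩

open Classical in
/-- normalisation of a vector -/
noncomputable def nrm (x : V) : S2 :=
  if h : x = 0 then pole else
    ⟨‖x‖⁻¹ • x, mem_sphere_zero_iff_norm.2 (norm_smul_inv_norm (𝕜 := ℝ) h)⟩

theorem nrm_val {x : V} (h : x ≠ 0) : (nrm x : V) = ‖x‖⁻¹ • x := by
  simp [nrm, h]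

theorem nrm_coe (x : S2) : nrm x = x := by
  have h := mem_sphere_zero_iff_norm.1 x.2
  have h0 : (x : V) ≠ 0 := by
    intro h'; rw [h'] at h; simp at h
  apply Subtype.ext
  rw [nrm_val h0, h]; simp

theorem nrm_neg {x : V} (h : x ≠ 0) : nrm (-x) = -nrm x := by
  apply Subtype.ext
  rw [nrm_val (neg_ne_zero.2 h), coe_neg_sphere, nrm_val h]
  simp

theorem continuousAt_nrm {x : V} (h : x ≠ 0) : ContinuousAt nrm x := by
  rw [IsInducing.subtypeVal.continuousAt_iff]
  have h1 : ContinuousAt (fun y : V => ‖y‖⁻¹ • y) x :=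
    (continuous_norm.continuousAt.inv₀ (norm_ne_zero_iff.2 h)).smul continuousAt_id
  refine h1.congr ?_
  filter_upwards [isOpen_ne.mem_nhds h] with y hy
  exact (nrm_val hy).symm

/-- the point of `Gr` given by two nonzero vectors -/
noncomputable def qq (x y : V) : Gr := pr (nrm x, nrm y)

theorem qq_val {x y : V} (hx : x ≠ 0) (hy : y ≠ 0) (i j : Fin 3) :
    (qq x y).1 i j = x i * y j / (‖x‖ * ‖y‖) := by
  simp only [qq, pr, segre, nrm_val hx, nrm_val hy, PiLp.smul_apply, smul_eq_mul]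
  have := norm_ne_zero_iff.2 hx
  have := norm_ne_zero_iff.2 hy
  field_simp

theorem qq_coe (x y : S2) : qq x y = pr (x, y) := by simp [qq, nrm_coe]

theorem qq_smul {x y : V} (hx : x ≠ 0) (hy : y ≠ 0) {c d : ℝ} (h : 0 < c * d) :
    qq (c • x) (d • y) = qq x y := by
  have hc : c ≠ 0 := by rintro rfl; simp at h
  have hd : d ≠ 0 := by rintro rfl; simp at h
  apply Subtype.ext
  funext i j
  rw [qq_val (smul_ne_zero hc hx) (smul_ne_zero hd hy), qq_val hx hy, norm_smul, norm_smul]
  have := norm_ne_zero_iff.2 hx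
  have := norm_ne_zero_iff.2 hy
  have e : ‖c‖ * ‖d‖ = c * d := by rw [← norm_mul, Real.norm_eq_abs, abs_of_pos h]
  simp only [PiLp.smul_apply, smul_eq_mul]
  rw [show ‖c‖ * ‖x‖ * (‖d‖ * ‖y‖) = (‖c‖ * ‖d‖) * (‖x‖ * ‖y‖) by ring, e]
  field_simp

theorem exists_qq (M : Gr) : ∃ x y : V, x ≠ 0 ∧ y ≠ 0 ∧ M = qq x y := by
  obtain ⟨⟨x, y⟩, rfl⟩ := pr_surj M
  exact ⟨x, y, ne_zero_of_mem_unit_sphere x, ne_zero_of_mem_unit_sphere y, (qq_coe x y).symm⟩

theorem ContinuousAt.qq {N : Type} [TopologicalSpace N] {f g : N → V} {n : N}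
    (hf : ContinuousAt f n) (hg : ContinuousAt g n) (f0 : f n ≠ 0) (g0 : g n ≠ 0) :
    ContinuousAt (fun m => qq (f m) (g m)) n :=
  continuous_pr.continuousAt.comp
    (((continuousAt_nrm f0).comp hf).prodMk ((continuousAt_nrm g0).comp hg))

theorem Continuous.qq {N : Type} [TopologicalSpace N] {f g : N → V}
    (hf : Continuous f) (hg : Continuous g) (f0 : ∀ n, f n ≠ 0) (g0 : ∀ n, g n ≠ 0) :
    Continuous (fun m => qq (f m) (g m)) :=
  continuous_iff_continuousAt.2 fun n =>
    ContinuousAt.qq hf.continuousAt hg.continuousAt (f0 n) (g0 n)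

theorem qq_pos_iff {x y : V} (hx : x ≠ 0) (hy : y ≠ 0) (s : ℝ) (i j : Fin 3) :
    0 < s * (qq x y).1 i j ↔ 0 < s * (x i * y j) := by
  rw [qq_val hx hy, ← mul_div_assoc]
  have := norm_pos_iff.2 hx
  have := norm_pos_iff.2 hy
  exact div_pos_iff_of_pos_right (by positivity)

theorem qq_zero_iff {x y : V} (hx : x ≠ 0) (hy : y ≠ 0) (i j : Fin 3) :
    (qq x y).1 i j = 0 ↔ x i * y j = 0 := by
  rw [qq_val hx hy]
  have := norm_pos_iff.2 hx
  have := norm_pos_iff.2 hy
  exact div_eq_zero_iff.trans (or_iff_left (by positivity))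

/-- equality of two points of `Gr` -/
theorem qq_eq {x y x' y' : V} (hx : x ≠ 0) (hy : y ≠ 0) (hx' : x' ≠ 0) (hy' : y' ≠ 0)
    (h : qq x y = qq x' y') : ∃ c d : ℝ, 0 < c * d ∧ x' = c • x ∧ y' = d • y := by
  have nx := norm_pos_iff.2 hx
  have ny := norm_pos_iff.2 hy
  have nx' := norm_pos_iff.2 hx'
  have ny' := norm_pos_iff.2 hy'
  have key : ∀ {a b : V} {s : ℝ}, b ≠ 0 → ‖b‖⁻¹ • b = s • a → b = (‖b‖ * s) • a := by
    intro a b s hb e
    rw [mul_smul, ← e, smul_smul, mul_inv_cancel₀ (norm_ne_zero_iff.2 hb), one_smul]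
  rcases (pr_eq_iff _ _).1 h with e | e
  · have e1 := congrArg (fun r : S2 × S2 => (r.1 : V)) e
    have e2 := congrArg (fun r : S2 × S2 => (r.2 : V)) e
    simp only [nrm_val hx, nrm_val hy, nrm_val hx', nrm_val hy'] at e1 e2
    exact ⟨_, _, by positivity, key hx' e1, key hy' e2⟩
  · have e1 := congrArg (fun r : S2 × S2 => (r.1 : V)) e
    have e2 := congrArg (fun r : S2 × S2 => (r.2 : V)) e
    simp only [dk, coe_neg_sphere, nrm_val hx, nrm_val hy, nrm_val hx', nrm_val hy',
      ← neg_smul] at e1 e2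
    refine ⟨_, _, ?_, key hx' e1, key hy' e2⟩
    rw [show ‖x'‖ * -‖x‖⁻¹ * (‖y'‖ * -‖y‖⁻¹) = ‖x'‖ * ‖x‖⁻¹ * (‖y'‖ * ‖y‖⁻¹) by ring]
    positivity

end Pool.Agent.Work.MP_7ba843_gt
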