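import Pool.Agent.Work.MP_7ba843_gt.Charts

/-! The embedded solid torus and its tubular neighbourhood. -/

open Set Topology Complex
open scoped Manifold ContDiff ComplexConjugate

namespace Pool.Agent.Work.MP_7ba843_gt

attribute [local instance] finrank_real_complex_fact'

/-- first vector -/
noncomputable def vx (m ν : ℂ) : V := !₂[m.re, m.im, (m * ν).re]

/-- second vector -/
noncomputable def vy (m ν : ℂ) (t : ℝ) : V :=
  !₂[m.re - t * m.im, m.im + t * m.re, (m * ν).im]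

theorem vx_ne {m : ℂ} (h : m ≠ 0) (ν : ℂ) : vx m ν ≠ 0 := by
  intro h'
  have h0 : m.re = 0 := by simpa [vx] using congrArg (fun v : V => v 0) h'
  have h1 : m.im = 0 := by simpa [vx] using congrArg (fun v : V => v 1) h'
  exact h (Complex.ext h0 h1)

theorem vy_ne {m : ℂ} (h : m ≠ 0) (ν : ℂ) (t : ℝ) : vy m ν t ≠ 0 := by
  intro h'
  have h0 : m.re - t * m.im = 0 := by simpa [vy] using congrArg (fun v : V => v 0) h'
  have h1 : m.im + t * m.re = 0 := by simpa [vy] using congrArg (fun v : V => v 1) h'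
  have p : (1 + t ^ 2) ≠ 0 := by positivity
  have a : (1 + t ^ 2) * m.re = 0 := by linear_combination h0 + t * h1
  have b : (1 + t ^ 2) * m.im = 0 := by linear_combination h1 - t * h0
  exact h (Complex.ext (by simpa [p] using a) (by simpa [p] using b))

theorem vx_smul (r : ℝ) (m ν : ℂ) : vx (r * m) ν = r • vx m ν := by
  ext i; fin_cases i <;> simp [vx]; ring

theorem vy_smul (r : ℝ) (m ν : ℂ) (t : ℝ) : vy (r * m) ν t = r • vy m ν t := by
  ext i; fin_cases i <;> simp [vy] <;> ring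

open Classical in
/-- a representative of the half angle direction -/
noncomputable def half (z : Circle) : ℂ := if (z : ℂ) = -1 then I else 1 + z

theorem half_ne (z : Circle) : half z ≠ 0 := by
  unfold half
  split_ifs with h
  · exact I_ne_zero
  · intro h'
    exact h (by linear_combination h')

theorem mul_conj_circle (z : Circle) : (z : ℂ) * conj (z : ℂ) = 1 := by
  rw [Complex.mul_conj]; simp

theorem half_spec (z : Circle) : half z = z * conj (half z) := by
  unfold half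
  split_ifs with h
  · simp [h]
  · rw [map_add, map_one, mul_add, mul_conj_circle]; ring

theorem ratio_real {z m m' : ℂ} (hm : m ≠ 0) (hm' : m' ≠ 0) (h : m = z * conj m)
    (h' : m' = z * conj m') : ∃ r : ℝ, r ≠ 0 ∧ m' = r * m := by
  have hz : z ≠ 0 := by rintro rfl; simp [hm] at h
  have hc : conj m ≠ 0 := by simpa using hm
  have e : conj (m' / m) = m' / m := by
    rw [map_div₀]
    field_simp
    linear_combination (conj m') * h - (conj m) * h'
  have e2 := Complex.conj_eq_iff_re.1 e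
  refine ⟨(m' / m).re, ?_, ?_⟩
  · intro h0
    rw [h0] at e2
    exact div_ne_zero hm' hm (by simpa using e2.symm)
  · rw [e2]; field_simp

/-- the tubular neighbourhood -/
noncomputable def tube (q : (Circle × ℂ) × ℝ) : Gr :=
  qq (vx (half q.1.1) q.1.2) (vy (half q.1.1) q.1.2 q.2)

theorem tube_eq {z : Circle} {m : ℂ} (hm : m ≠ 0) (h : m = z * conj m) (ν : ℂ) (t : ℝ) :
    tube ((z, ν), t) = qq (vx m ν) (vy m ν t) := by
  obtain ⟨r, hr, e⟩ := ratio_real hm (half_ne z) h (half_spec z)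
  simp only [tube]
  rw [e, vx_smul, vy_smul, qq_smul (vx_ne hm _) (vy_ne hm _ _) (mul_self_pos.2 hr)]

theorem contMDiff_tube :
    ContMDiff (((𝓡 1).prod 𝓘(ℝ, ℂ)).prod 𝓘(ℝ, ℝ)) (𝓡 4) ∞ tube := by
  rintro ⟨⟨z0, ν0⟩, t0⟩
  apply contMDiffAt_of_val
  let m : ℂ → ℂ := fun z => half z0 + z * conj (half z0)
  have m0 : m z0 ≠ 0 := by
    simp only [m, ← half_spec]
    rw [← two_mul]
    exact mul_ne_zero two_ne_zero (half_ne z0)
  have mc : ∀ z : Circle, m z = z * conj (m z) := by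
    intro z
    simp only [m, map_add, map_mul, Complex.conj_conj]
    linear_combination (-half z0) * mul_conj_circle z
  let G : (ℂ × ℂ) × ℝ → Mat := fun q => (qq (vx (m q.1.1) q.1.2) (vy (m q.1.1) q.1.2 q.2)).1
  have hre : ContDiff ℝ ∞ Complex.re := Complex.reCLM.contDiff
  have him : ContDiff ℝ ∞ Complex.im := Complex.imCLM.contDiff
  have Gs : ContDiffAt ℝ ∞ G ((z0, ν0), t0) := by
    refine contDiffAt_qq_val ?_ ?_ (vx_ne m0 _) (vy_ne m0 _ _)
    · rw [contDiffAt_euclidean]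
      intro i
      fin_cases i <;> simp [vx, m] <;> fun_prop
    · rw [contDiffAt_euclidean]
      intro i
      fin_cases i <;> simp [vy, m] <;> fun_prop
  let ι : (Circle × ℂ) × ℝ → (ℂ × ℂ) × ℝ := fun q => ((q.1.1, q.1.2), q.2)
  have hc : ContMDiff (𝓡 1) 𝓘(ℝ, ℂ) ∞ (fun z : Circle => (z : ℂ)) := contMDiff_coe_sphere
  have ιs : ContMDiff (((𝓡 1).prod 𝓘(ℝ, ℂ)).prod 𝓘(ℝ, ℝ)) 𝓘(ℝ, (ℂ × ℂ) × ℝ) ∞ ι :=
    ((hc.comp (contMDiff_fst.comp contMDiff_fst)).prodMk_space
      (contMDiff_snd.comp contMDiff_fst)).prodMk_space contMDiff_snd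
  refine (ContDiffAt.comp_contMDiffAt (f := ι) Gs (ιs _)).congr_of_eventuallyEq ?_
  have : ContinuousAt (fun q : (Circle × ℂ) × ℝ => m q.1.1) ((z0, ν0), t0) := by
    simp only [m]
    fun_prop
  filter_upwards [this.eventually_ne m0] with q hq
  obtain ⟨⟨z, ν⟩, t⟩ := q
  simp only [Function.comp_apply, G, ι]
  rw [tube_eq hq (mc z)]

/-- denominator -/
def dd (M : Mat) : ℝ := M 0 0 + M 1 1

/-- normal coordinate -/
noncomputable def tt (M : Mat) : ℝ := (M 0 1 - M 1 0) / dd M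

/-- circle coordinate -/
noncomputable def zz (M : Mat) : ℂ :=
  (((M 0 0 - M 1 1 : ℝ) : ℂ) + (M 0 1 + M 1 0 : ℝ) * I) / (dd M * (1 + tt M * I))

/-- disc coordinate -/
noncomputable def nn (M : Mat) : ℂ :=
  (((M 2 0 : ℝ) - (M 2 1 : ℝ) * I) / (1 - tt M * I) + I * ((M 0 2 : ℝ) - (M 1 2 : ℝ) * I)) / dd M

theorem one_add_ne (t : ℝ) : (1 + t * I : ℂ) ≠ 0 := by
  intro h
  simpa using congrArg Complex.re h

theorem one_sub_ne (t : ℝ) : (1 - t * I : ℂ) ≠ 0 := by
  intro h
  simpa using congrArg Complex.re h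

theorem coords {m : ℂ} (hm : m ≠ 0) (ν : ℂ) (t : ℝ) :
    0 < dd (qq (vx m ν) (vy m ν t)).1 ∧ tt (qq (vx m ν) (vy m ν t)).1 = t ∧
      zz (qq (vx m ν) (vy m ν t)).1 = m / conj m ∧ nn (qq (vx m ν) (vy m ν t)).1 = ν := by
  obtain ⟨c, hc, hM⟩ : ∃ c : ℝ, 0 < c ∧ ∀ i j, (qq (vx m ν) (vy m ν t)).1 i j =
      c * (vx m ν i * vy m ν t j) := by
    have a := norm_pos_iff.2 (vx_ne hm ν)
    have b := norm_pos_iff.2 (vy_ne hm ν t)
    refine ⟨(‖vx m ν‖ * ‖vy m ν t‖)⁻¹, by positivity, fun i j => ?_⟩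
    rw [qq_val (vx_ne hm ν) (vy_ne hm ν t), div_eq_inv_mul]
  set M := (qq (vx m ν) (vy m ν t)).1
  have hn : 0 < normSq m := normSq_pos.2 hm
  have hd : dd M = c * normSq m := by
    simp [dd, hM, vx, vy, normSq_apply]; ring
  have ht : tt M = t := by
    rw [tt, hd, div_eq_iff (by positivity)]
    simp [hM, vx, vy, normSq_apply]; ring
  have hc' : (c : ℂ) ≠ 0 := by exact_mod_cast hc.ne'
  have hm' : conj m ≠ 0 := by simpa using hm
  have hd' : (dd M : ℂ) = c * (m * conj m) := by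
    rw [hd, Complex.mul_conj]; push_cast; rfl
  refine ⟨by rw [hd]; positivity, ht, ?_, ?_⟩
  · have e : (((M 0 0 - M 1 1 : ℝ) : ℂ) + (M 0 1 + M 1 0 : ℝ) * I) = c * m * m * (1 + t * I) := by
      apply Complex.ext <;> simp [hM, vx, vy] <;> ring
    have := one_add_ne t
    rw [zz, e, ht, hd']
    field_simp
  · have e1 : (((M 2 0 : ℝ) : ℂ) - (M 2 1 : ℝ) * I) = c * (m * ν).re * conj m * (1 - t * I) := by
      apply Complex.ext <;> simp [hM, vx, vy] <;> ring
    have e2 : (((M 0 2 : ℝ) : ℂ) - (M 1 2 : ℝ) * I) = c * (m * ν).im * conj m := by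
      apply Complex.ext <;> simp [hM, vx, vy] <;> ring
    have := one_sub_ne t
    have e3 := Complex.re_add_im (m * ν)
    rw [nn, e1, e2, ht, hd']
    field_simp
    linear_combination e3

theorem coords_tube (q : (Circle × ℂ) × ℝ) :
    0 < dd (tube q).1 ∧ tt (tube q).1 = q.2 ∧ zz (tube q).1 = q.1.1 ∧ nn (tube q).1 = q.1.2 := by
  obtain ⟨a, b, c, d⟩ := coords (half_ne q.1.1) q.1.2 q.2
  refine ⟨a, b, c.trans ?_, d⟩
  have : conj (half q.1.1) ≠ 0 := by simpa using half_ne q.1.1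
  rw [div_eq_iff this]
  exact half_spec _

theorem exists_tube {M : Gr} (h : 0 < dd M.1) : ∃ q, M = tube q := by
  obtain ⟨x, y, hx, hy, rfl⟩ := exists_qq M
  have nx := norm_pos_iff.2 hx
  have ny := norm_pos_iff.2 hy
  have hD : 0 < x 0 * y 0 + x 1 * y 1 := by
    rw [dd, qq_val hx hy, qq_val hx hy, ← add_div] at h
    exact (div_pos_iff_of_pos_right (by positivity)).1 h
  let m : ℂ := ⟨x 0, x 1⟩
  have hm : m ≠ 0 := by
    intro h0
    have a : x 0 = 0 := congrArg Complex.re h0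
    have b : x 1 = 0 := congrArg Complex.im h0
    simp [a, b] at hD
  have hn : 0 < x 0 * x 0 + x 1 * x 1 := normSq_pos.2 hm
  have hm' : conj m ≠ 0 := by simpa using hm
  let z : Circle := ⟨m / conj m, by
    apply mem_sphere_zero_iff_norm.2
    rw [norm_div, Complex.norm_conj, div_self (norm_ne_zero_iff.2 hm)]⟩
  let c : ℝ := (x 0 * x 0 + x 1 * x 1) / (x 0 * y 0 + x 1 * y 1)
  have hc : 0 < c := by positivity
  let ν : ℂ := (⟨x 2, c * y 2⟩ : ℂ) / m
  have hν : m * ν = ⟨x 2, c * y 2⟩ := by simp only [ν]; field_simp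
  refine ⟨((z, ν), (x 0 * y 1 - x 1 * y 0) / (x 0 * y 0 + x 1 * y 1)), ?_⟩
  rw [tube_eq hm (by change m = m / conj m * conj m; field_simp)]
  have e1 : vx m ν = (1 : ℝ) • x := by
    ext i; fin_cases i <;> simp [vx, hν, m]
  have e2 : vy m ν ((x 0 * y 1 - x 1 * y 0) / (x 0 * y 0 + x 1 * y 1)) = c • y := by
    have hD' := hD.ne'
    ext i
    fin_cases i
    · change x 0 - (x 0 * y 1 - x 1 * y 0) / (x 0 * y 0 + x 1 * y 1) * x 1 = c * y 0
      simp only [c]
      rw [div_mul_eq_mul_div, div_mul_eq_mul_div, eq_div_iff hD', sub_mul, div_mul_cancel₀ _ hD']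
      ring
    · change x 1 + (x 0 * y 1 - x 1 * y 0) / (x 0 * y 0 + x 1 * y 1) * x 0 = c * y 1
      simp only [c]
      rw [div_mul_eq_mul_div, div_mul_eq_mul_div, eq_div_iff hD', add_mul, div_mul_cancel₀ _ hD']
      ring
    · simp [vy, hν]
  rw [e1, e2, qq_smul hx hy (by positivity)]

/-- inverse of the tube -/
noncomputable def untube (M : Gr) : (Circle × ℂ) × ℝ :=
  ((Circle.exp (arg (zz M.1)), nn M.1), tt M.1)

theorem untube_tube (q : (Circle × ℂ) × ℝ) : untube (tube q) = q := by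
  obtain ⟨-, b, c, d⟩ := coords_tube q
  simp only [untube, b, c, d, Circle.exp_arg]

theorem contDiffAt_tt {M : Mat} (h : 0 < dd M) : ContDiffAt ℝ ∞ tt M := by
  have h' : M 0 0 + M 1 1 ≠ 0 := h.ne'
  unfold tt dd
  fun_prop (disch := exact h')

theorem contDiffAt_dd (M : Mat) : ContDiffAt ℝ ∞ dd M := by
  unfold dd
  fun_prop

theorem contDiffAt_zz {M : Mat} (h : 0 < dd M) : ContDiffAt ℝ ∞ zz M := by
  have a := contDiffAt_tt h
  have b := contDiffAt_dd M
  have c : ContDiff ℝ ∞ Complex.ofReal := Complex.ofRealCLM.contDiff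
  have n : ((dd M : ℂ) * (1 + tt M * I)) ≠ 0 :=
    mul_ne_zero (by exact_mod_cast h.ne') (one_add_ne _)
  unfold zz
  simp only [div_eq_mul_inv]
  refine ContDiffAt.mul (by fun_prop) (ContDiffAt.inv (by fun_prop) n)

theorem contDiffAt_nn {M : Mat} (h : 0 < dd M) : ContDiffAt ℝ ∞ nn M := by
  have a := contDiffAt_tt h
  have b := contDiffAt_dd M
  have c : ContDiff ℝ ∞ Complex.ofReal := Complex.ofRealCLM.contDiff
  have n : (dd M : ℂ) ≠ 0 := by exact_mod_cast h.ne'
  unfold nn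
  simp only [div_eq_mul_inv]
  refine ContDiffAt.mul (ContDiffAt.add (ContDiffAt.mul (by fun_prop)
    (ContDiffAt.inv (by fun_prop) (one_sub_ne _))) (by fun_prop)) (ContDiffAt.inv (by fun_prop) n)

theorem isOpen_dd : IsOpen {M : Gr | 0 < dd M.1} :=
  isOpen_lt continuous_const
    ((continuous_iff_continuousAt.2 fun M => (contDiffAt_dd M).continuousAt).comp
      continuous_subtype_val)

theorem contMDiffAt_untube {M : Gr} (h : 0 < dd M.1) :
    ContMDiffAt (𝓡 4) (((𝓡 1).prod 𝓘(ℝ, ℂ)).prod 𝓘(ℝ, ℝ)) ∞ untube M := by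
  refine ContMDiffAt.prodMk (ContMDiffAt.prodMk ?_ ?_) ?_
  · let U : TopologicalSpace.Opens Gr := ⟨{M : Gr | 0 < dd M.1}, isOpen_dd⟩
    have f1 : ContMDiff (𝓡 4) 𝓘(ℝ, ℂ) ∞ (fun N : U => zz N.1.1) := fun N =>
      (contMDiffAt_subtype_iff (f := fun N : Gr => zz N.1)).2
        (ContDiffAt.comp_contMDiffAt (f := Subtype.val) (contDiffAt_zz N.2) (contMDiff_val _))
    have f2 : ∀ N : U, zz N.1.1 ∈ Metric.sphere (0 : ℂ) 1 := by
      intro N
      obtain ⟨q, hq⟩ := exists_tube N.2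
      rw [hq, (coords_tube q).2.2.1]
      exact q.1.1.2
    let g : U → Circle := fun N => ⟨zz N.1.1, f2 N⟩
    have f3 : ContMDiff (𝓡 4) (𝓡 1) ∞ g := f1.codRestrict_sphere f2
    have f4 : g = fun N : U => Circle.exp (arg (zz N.1.1)) :=
      funext fun N => (Circle.exp_arg (g N)).symm
    rw [f4] at f3
    exact (contMDiffAt_subtype_iff (f := fun N : Gr => Circle.exp (arg (zz N.1)))
      (x := (⟨M, h⟩ : U))).1 (f3 _)
  · exact ContDiffAt.comp_contMDiffAt (f := Subtype.val) (contDiffAt_nn h) (contMDiff_val _)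
  · exact ContDiffAt.comp_contMDiffAt (f := Subtype.val) (contDiffAt_tt h) (contMDiff_val _)

/-- the tube as an open partial homeomorphism -/
noncomputable def tubeH : OpenPartialHomeomorph Gr ((Circle × ℂ) × ℝ) where
  toFun := untube
  invFun := tube
  source := {M : Gr | 0 < dd M.1}
  target := univ
  map_source' := fun _ _ => mem_univ _
  map_target' := fun q _ => (coords_tube q).1
  left_inv' := by
    intro M hM
    obtain ⟨q, rfl⟩ := exists_tube hM
    rw [untube_tube]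
  right_inv' := fun q _ => untube_tube q
  open_source := isOpen_dd
  open_target := isOpen_univ
  continuousOn_toFun := fun _ hM => (contMDiffAt_untube hM).continuousAt.continuousWithinAt
  continuousOn_invFun := contMDiff_tube.continuous.continuousOn

/-- the open solid torus -/
noncomputable def torus (q : Circle × ℂ) : Gr := tube (q, 0)

theorem continuous_torus : Continuous torus :=
  contMDiff_tube.continuous.comp (continuous_id.prodMk continuous_const)

theorem isEmbedding_torus : IsEmbedding torus := by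
  have h1 : IsOpenEmbedding tube := tubeH.symm.isOpenEmbedding rfl
  exact h1.isEmbedding.comp (isEmbedding_prodMkLeft 0)

theorem smoothEmbedding_torus :
    Manifold.IsSmoothEmbedding ((𝓡 1).prod 𝓘(ℝ, ℂ)) (𝓡 4) ∞ torus := by
  refine ⟨Manifold.IsImmersionOfComplement.isImmersion (F := ℝ) ?_, isEmbedding_torus⟩
  intro q0
  let L : ((EuclideanSpace ℝ (Fin 1) × ℂ) × ℝ) ≃L[ℝ] E4 :=
    ContinuousLinearEquiv.ofFinrankEq (by simp)
  let φ := chartAt (ModelProd (EuclideanSpace ℝ (Fin 1)) ℂ) q0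
  let ψ : OpenPartialHomeomorph Gr E4 :=
    (tubeH.trans (φ.prod (OpenPartialHomeomorph.refl ℝ))).trans
      L.toHomeomorph.toOpenPartialHomeomorph
  have ψa : ∀ M, ψ M = L (φ (untube M).1, (untube M).2) := fun _ => rfl
  have ψs : ∀ w, ψ.symm w = tube (φ.symm (L.symm w).1, (L.symm w).2) := fun _ => rfl
  have ψsrc : ∀ M, M ∈ ψ.source ↔ 0 < dd M.1 ∧ (untube M).1 ∈ φ.source := by
    intro M
    simp [ψ, tubeH]
  have ψtgt : ∀ w, w ∈ ψ.target → (L.symm w).1 ∈ φ.target := by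
    intro w hw
    exact hw.2.1.1
  refine Manifold.IsImmersionAtOfComplement.mk_of_continuousAt continuous_torus.continuousAt L φ ψ
    (mem_chart_source _ _) ?_ (IsManifold.chart_mem_maximalAtlas _) ?_ ?_
  · rw [ψsrc, torus, untube_tube]
    exact ⟨(coords_tube _).1, mem_chart_source _ _⟩
  · apply OpenPartialHomeomorph.mem_maximalAtlas_of_contMDiffOn
    · intro M hM
      obtain ⟨h1, h2⟩ := (ψsrc M).1 hM
      apply ContMDiffAt.contMDiffWithinAt
      have a := contMDiffAt_untube h1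
      have b : ContMDiffAt ((𝓡 1).prod 𝓘(ℝ, ℂ)) 𝓘(ℝ, EuclideanSpace ℝ (Fin 1) × ℂ) ∞
          (extChartAt ((𝓡 1).prod 𝓘(ℝ, ℂ)) q0) (untube M).1 := contMDiffAt_extChartAt' h2
      exact L.contDiff.contDiffAt.comp_contMDiffAt ((b.comp M a.fst).prodMk_space a.snd)
    · intro w hw
      have h1 := ψtgt w hw
      apply ContMDiffAt.contMDiffWithinAt
      have b : ContMDiffAt 𝓘(ℝ, EuclideanSpace ℝ (Fin 1) × ℂ) ((𝓡 1).prod 𝓘(ℝ, ℂ)) ∞
          (extChartAt ((𝓡 1).prod 𝓘(ℝ, ℂ)) q0).symm (L.symm w).1 := by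
        refine (contMDiffOn_extChartAt_symm q0).contMDiffAt ?_
        refine (isOpen_extChartAt_target q0).mem_nhds ?_
        rw [extChartAt_target]
        exact ⟨h1, ⟨(L.symm w).1, rfl⟩⟩
      have c : ContDiff ℝ ∞ L.symm := L.symm.contDiff
      exact (contMDiff_tube _).comp w ((b.comp w c.fst.contMDiff.contMDiffAt).prodMk
        c.snd.contMDiff.contMDiffAt)
  · intro u hu
    rw [OpenPartialHomeomorph.extend_target] at hu
    have hu' : u ∈ φ.target := hu.1
    change ψ (torus (φ.symm u)) = L (u, 0)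
    rw [ψa, torus, untube_tube, φ.right_inv hu']

end Pool.Agent.Work.MP_7ba843_gt
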